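import Pool.Agent.Lib.MP_ad5d82_an.h24.HDefs
import Pool.Agent.Lib.MP_ad5d82_an.LogKernel

set_option autoImplicit false

namespace Pool.MP_ad5d82_an.Wl

open Real Set MeasureTheory Filter Topology
open scoped ContDiff

variable {ι : Type} [Fintype ι] [DecidableEq ι]

/-! ### R1 the logarithmic kernel on `ℂ` -/

private lemma r1_sq_le {t : ℝ} (ht : 0 < t) : Real.log t ^ 2 ≤ 4 * (t + t⁻¹) := by
  have hs : 0 < Real.sqrt t := Real.sqrt_pos.2 ht
  have h1 : Real.log t = 2 * Real.log (Real.sqrt t) := by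
    rw [Real.log_sqrt ht.le]
    ring
  have h2 : Real.sqrt t ^ 2 = t := Real.sq_sqrt ht.le
  have h3 : Real.log (Real.sqrt t) ≤ Real.sqrt t := Real.log_le_self hs.le
  have h4 : -Real.log (Real.sqrt t) ≤ (Real.sqrt t)⁻¹ := by
    rw [← Real.log_inv]
    exact Real.log_le_self (by positivity)
  have h5 : (Real.sqrt t)⁻¹ ^ 2 = t⁻¹ := by rw [inv_pow, h2]
  have h6 : Real.log (Real.sqrt t) ^ 2 ≤ t + t⁻¹ := by
    rcases le_total 0 (Real.log (Real.sqrt t)) with h | h
    · have := pow_le_pow_left₀ h h3 2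
      have h7 : 0 < t⁻¹ := by positivity
      linarith
    · have := pow_le_pow_left₀ (by linarith : 0 ≤ -Real.log (Real.sqrt t)) h4 2
      rw [h5] at this
      nlinarith
  rw [h1]
  nlinarith

private lemma r1_inv_norm (R : ℝ) :
    IntegrableOn (fun x : ℂ => ‖x‖⁻¹) (Metric.closedBall 0 R) volume := by
  have h1 : Integrable (fun x : ℂ => (Iic R).indicator (fun r : ℝ => r⁻¹) ‖x‖) volume := by
    rw [integrable_fun_norm_addHaar, Complex.finrank_real_complex]
    have h2 : IntegrableOn (fun _ : ℝ => (1:ℝ)) (Ioc 0 R) volume := by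
      simp
    have h3 : IntegrableOn ((Ioc 0 R).indicator fun _ : ℝ => (1:ℝ)) (Ioi 0) volume := by
      rw [integrableOn_indicator_iff measurableSet_Ioc]
      exact h2.mono_set inter_subset_left
    refine h3.congr_fun (fun y hy => ?_) measurableSet_Ioi
    have hy0 : (0:ℝ) < y := hy
    by_cases hyR : y ≤ R
    · simp [indicator_of_mem, mem_Ioc, hy0, hyR, mem_Iic, hy0.ne']
    · simp [indicator_of_notMem, mem_Ioc, hy0, hyR, mem_Iic]
  rw [← integrable_indicator_iff Metric.isClosed_closedBall.measurableSet]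
  refine h1.congr (Eventually.of_forall fun x => ?_)
  by_cases hx : ‖x‖ ≤ R
  · simp [indicator_of_mem, hx]
  · simp [indicator_of_notMem, hx]

private lemma r1_meas (R : ℝ) : Measurable (fun z : ℂ => Real.log (‖z‖ / R)) :=
  Real.measurable_log.comp (measurable_norm.div_const R)

private lemma r1_bound {R : ℝ} (hR : 0 < R) (z : ℂ) :
    Real.log (‖z‖ / R) ^ 2 ≤ 4 * (‖z‖ / R + R * ‖z‖⁻¹) := by
  rcases eq_or_ne z 0 with rfl | hz
  · simp
  have h0 : 0 < ‖z‖ := norm_pos_iff.2 hz
  have := r1_sq_le (t := ‖z‖ / R) (by positivity)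
  rwa [inv_div, div_eq_mul_inv R ‖z‖] at this

private lemma r1_sq_int {R : ℝ} (hR : 0 < R) (ρ : ℝ) :
    IntegrableOn (fun z : ℂ => Real.log (‖z‖ / R) ^ 2) (Metric.closedBall 0 ρ) volume := by
  have h1 : IntegrableOn (fun z : ℂ => 4 * (‖z‖ / R + R * ‖z‖⁻¹)) (Metric.closedBall 0 ρ)
      volume := by
    apply Integrable.const_mul
    apply Integrable.add
    · exact (continuous_norm.div_const R).locallyIntegrable.integrableOn_isCompact
        (isCompact_closedBall 0 ρ)
    · exact (r1_inv_norm ρ).const_mul R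
  refine Integrable.mono' h1 ((r1_meas R).pow_const 2).aestronglyMeasurable
    (Eventually.of_forall fun z => ?_)
  rw [Real.norm_eq_abs, abs_of_nonneg (sq_nonneg _)]
  exact r1_bound hR z

/-- the kernel is locally integrable -/
theorem log_kernel_locInt {R : ℝ} (hR : 0 < R) :
    LocallyIntegrable (fun z : ℂ => Real.log (‖z‖ / R)) volume := by
  rw [locallyIntegrable_iff]
  intro K hK
  obtain ⟨ρ, hρ⟩ := hK.isBounded.subset_closedBall 0
  refine IntegrableOn.mono_set ?_ hρ
  have h1 : IntegrableOn (fun z : ℂ => 1 + Real.log (‖z‖ / R) ^ 2) (Metric.closedBall 0 ρ)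
      volume := by
    apply Integrable.add
    · exact (continuous_const (y := (1 : ℝ))).locallyIntegrable.integrableOn_isCompact
        (isCompact_closedBall 0 ρ)
    · exact r1_sq_int hR ρ
  refine Integrable.mono' h1 (r1_meas R).aestronglyMeasurable (Eventually.of_forall fun z => ?_)
  rw [Real.norm_eq_abs]
  have h2 : |Real.log (‖z‖ / R)| ^ 2 = Real.log (‖z‖ / R) ^ 2 := sq_abs _
  nlinarith [sq_nonneg (|Real.log (‖z‖ / R)| - 1)]

private lemma r1_fd_test {φ : ℂ → ℝ} (hφ : IsTestR φ) (v : ℂ) :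
    IsTestR (fun w => fderiv ℝ φ w v) := by
  refine ⟨?_, hφ.2.fderiv_apply ℝ v⟩
  exact (hφ.1.fderiv_right (m := ∞) (by exact_mod_cast le_top)).clm_apply contDiff_const

private lemma r1_test_int {φ : ℂ → ℝ} (hφ : IsTestR φ) : Integrable φ volume :=
  hφ.1.continuous.integrable_of_hasCompactSupport hφ.2

private lemma r1_int_fd {φ : ℂ → ℝ} (hφ : IsTestR φ) (v : ℂ) : ∫ z, fderiv ℝ φ z v = 0 := by
  have h1 := integral_mul_fderiv_eq_neg_fderiv_mul_of_integrable (μ := (volume : Measure ℂ))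
    (f := fun _ : ℂ => (1 : ℝ)) (g := φ) (v := v) (by simp)
    (by simpa using r1_test_int (r1_fd_test hφ v)) (by simpa using r1_test_int hφ)
    (fun x _ => differentiableAt_const _)
    (fun x _ => (hφ.1.differentiable (by simp)).differentiableAt)
  simpa using h1

private lemma r1_lap_test {φ : ℂ → ℝ} (hφ : IsTestR φ) : IsTestR (lapC φ) := by
  have h1 := r1_fd_test (r1_fd_test hφ 1) 1
  have h2 := r1_fd_test (r1_fd_test hφ Complex.I) Complex.I
  exact ⟨h1.1.add h2.1, h1.2.add h2.2⟩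

private lemma r1_int_lap {φ : ℂ → ℝ} (hφ : IsTestR φ) : ∫ z, lapC φ z = 0 := by
  have h1 := r1_fd_test (r1_fd_test hφ 1) 1
  have h2 := r1_fd_test (r1_fd_test hφ Complex.I) Complex.I
  have h3 : ∫ z, lapC φ z = (∫ z, fderiv ℝ (fun w => fderiv ℝ φ w 1) z 1) +
      ∫ z, fderiv ℝ (fun w => fderiv ℝ φ w Complex.I) z Complex.I :=
    integral_add (r1_test_int h1) (r1_test_int h2)
  rw [h3, r1_int_fd (r1_fd_test hφ 1) 1, r1_int_fd (r1_fd_test hφ Complex.I) Complex.I, add_zero]

private lemma r1_second {φ : ℂ → ℝ} (hφ : IsTestR φ) (w u v : ℝ × ℝ) :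
    fderiv ℝ (fderiv ℝ (φ ∘ Complex.equivRealProdCLM.symm)) w u v =
      fderiv ℝ (fun z => fderiv ℝ φ z (Complex.equivRealProdCLM.symm v))
        (Complex.equivRealProdCLM.symm w) (Complex.equivRealProdCLM.symm u) := by
  have ha : ∀ w : ℝ × ℝ, fderiv ℝ (φ ∘ Complex.equivRealProdCLM.symm) w v =
      ((fun z => fderiv ℝ φ z (Complex.equivRealProdCLM.symm v)) ∘
        Complex.equivRealProdCLM.symm) w := by
    intro w
    rw [ContinuousLinearEquiv.comp_right_fderiv]
    rfl
  have hψ : ContDiff ℝ ∞ (φ ∘ Complex.equivRealProdCLM.symm) :=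
    hφ.1.comp Complex.equivRealProdCLM.symm.contDiff
  have hψ1 : ContDiff ℝ ∞ (fderiv ℝ (φ ∘ Complex.equivRealProdCLM.symm)) :=
    hψ.fderiv_right (by exact_mod_cast le_top)
  have hb : fderiv ℝ (fun w => fderiv ℝ (φ ∘ Complex.equivRealProdCLM.symm) w v) w u =
      fderiv ℝ (fderiv ℝ (φ ∘ Complex.equivRealProdCLM.symm)) w u v := by
    have h1 : DifferentiableAt ℝ (fderiv ℝ (φ ∘ Complex.equivRealProdCLM.symm)) w :=
      (hψ1.differentiable (by simp)).differentiableAt
    have h2 := (h1.hasFDerivAt.clm_apply (hasFDerivAt_const v w)).fderiv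
    rw [h2]
    simp
  rw [← hb]
  have hc : (fun w => fderiv ℝ (φ ∘ Complex.equivRealProdCLM.symm) w v) =
      (fun z => fderiv ℝ φ z (Complex.equivRealProdCLM.symm v)) ∘
        Complex.equivRealProdCLM.symm := funext ha
  rw [hc, ContinuousLinearEquiv.comp_right_fderiv]
  rfl

private lemma r1_lap {φ : ℂ → ℝ} (hφ : IsTestR φ) (z : ℂ) :
    Pool.Agent.ChernSimons.lap (φ ∘ Complex.equivRealProdCLM.symm) (Complex.equivRealProd z) =
      lapC φ z := by
  have h1 : Complex.equivRealProdCLM.symm ((1 : ℝ), (0 : ℝ)) = 1 := by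
    apply Complex.ext <;> simp
  have h2 : Complex.equivRealProdCLM.symm ((0 : ℝ), (1 : ℝ)) = Complex.I := by
    apply Complex.ext <;> simp
  have h3 : Complex.equivRealProdCLM.symm (Complex.equivRealProd z) = z := by
    apply Complex.ext <;> simp
  have h4 : ∀ w : ℝ × ℝ, Pool.Agent.ChernSimons.lap (φ ∘ Complex.equivRealProdCLM.symm) w =
      fderiv ℝ (fderiv ℝ (φ ∘ Complex.equivRealProdCLM.symm)) w (1, 0) (1, 0)
      + fderiv ℝ (fderiv ℝ (φ ∘ Complex.equivRealProdCLM.symm)) w (0, 1) (0, 1) := by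
    intro w
    simp [Pool.Agent.ChernSimons.lap, iteratedFDeriv_two_apply]
  rw [h4, r1_second hφ, r1_second hφ, h1, h2, h3]
  rfl

private lemma r1_Qd (x y : ℂ) :
    Pool.Agent.ChernSimons.Qd (Complex.equivRealProd x) (Complex.equivRealProd y) =
      ‖x - y‖ ^ 2 := by
  rw [Pool.Agent.ChernSimons.Qd, Complex.sq_norm, Complex.normSq_apply]
  simp only [Complex.equivRealProd_apply, Complex.sub_re, Complex.sub_im]
  ring

/-- `∫ log(|x-y|/R) Δφ(y) dy = 2π φ(x)`. -/
theorem log_kernel {φ : ℂ → ℝ} (hφ : IsTestR φ) (R : ℝ) (hR : 0 < R) (x : ℂ) :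
    ∫ y, Real.log (‖x - y‖ / R) * lapC φ y = 2 * π * φ x := by
  have hcont : ContDiff ℝ ∞ (φ ∘ Complex.equivRealProdCLM.symm) :=
    hφ.1.comp Complex.equivRealProdCLM.symm.contDiff
  have hcs : HasCompactSupport (φ ∘ Complex.equivRealProdCLM.symm) :=
    hφ.2.comp_homeomorph Complex.equivRealProdCLM.symm.toHomeomorph
  have h1 := Pool.Agent.ChernSimons.log_Qd_laplacian (Complex.equivRealProd x) hcont hcs
  have h2 := Complex.volume_preserving_equiv_real_prod.integral_comp'
    (g := fun w : ℝ × ℝ => Real.log (Pool.Agent.ChernSimons.Qd (Complex.equivRealProd x) w) *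
      Pool.Agent.ChernSimons.lap (φ ∘ Complex.equivRealProdCLM.symm) w)
  rw [h1] at h2
  have h3 : (φ ∘ Complex.equivRealProdCLM.symm) (Complex.equivRealProd x) = φ x := by
    rw [Function.comp_apply]
    congr 1
  rw [h3] at h2
  have h4 : ∫ y : ℂ, Real.log (Pool.Agent.ChernSimons.Qd (Complex.equivRealProd x)
      (Complex.measurableEquivRealProd y)) *
      Pool.Agent.ChernSimons.lap (φ ∘ Complex.equivRealProdCLM.symm)
        (Complex.measurableEquivRealProd y) =
      ∫ y : ℂ, (2 * (Real.log (‖x - y‖ / R) * lapC φ y) + (2 * Real.log R) * lapC φ y) := by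
    apply integral_congr_ae
    have hne : ∀ᵐ y : ℂ ∂volume, y ≠ x := by
      rw [ae_iff]
      simp
    filter_upwards [hne] with y hy
    have e1 : Complex.measurableEquivRealProd y = Complex.equivRealProd y := rfl
    rw [e1, r1_lap hφ, r1_Qd]
    have h0 : 0 < ‖x - y‖ := norm_pos_iff.2 (sub_ne_zero.2 hy.symm)
    rw [Real.log_pow, Real.log_div h0.ne' hR.ne']
    push_cast
    ring
  have hL := r1_lap_test hφ
  have hk : Integrable (fun y : ℂ => Real.log (‖x - y‖ / R) * lapC φ y) volume := by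
    have h5 := hL.2.convolutionExists_right (ContinuousLinearMap.lsmul ℝ ℝ)
      (log_kernel_locInt hR) hL.1.continuous x
    have h6 := (convolutionExistsAt_iff_integrable_swap).1 h5
    simpa using h6
  rw [h4, integral_add (hk.const_mul 2) ((r1_test_int hL).const_mul _), integral_const_mul,
    integral_const_mul, r1_int_lap hφ, mul_zero, add_zero] at h2
  linarith

private lemma r1_ball_sub {g : ℂ → ℝ} (x : ℂ) (ρ : ℝ) :
    (Metric.ball x ρ).indicator (fun y => g (x - y)) =
      fun y => (Metric.ball 0 ρ).indicator g (x - y) := by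
  ext y
  by_cases hy : y ∈ Metric.ball x ρ
  · rw [indicator_of_mem hy, indicator_of_mem]
    rw [Metric.mem_ball, dist_eq_norm, sub_zero, norm_sub_rev]
    rwa [Metric.mem_ball, dist_eq_norm] at hy
  · rw [indicator_of_notMem hy, indicator_of_notMem]
    intro h
    apply hy
    rw [Metric.mem_ball, dist_eq_norm, sub_zero, norm_sub_rev] at h
    rwa [Metric.mem_ball, dist_eq_norm]

theorem log_sq_integrable (R : ℝ) (hR : 0 < R) (x : ℂ) (R' : ℝ) :
    IntegrableOn (fun y : ℂ => Real.log (‖x - y‖ / R) ^ 2) (Metric.ball x R') volume := by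
  rw [← integrable_indicator_iff Metric.isOpen_ball.measurableSet,
    r1_ball_sub (g := fun z => Real.log (‖z‖ / R) ^ 2) x R']
  apply Integrable.comp_sub_left
  rw [integrable_indicator_iff Metric.isOpen_ball.measurableSet]
  exact (r1_sq_int hR R').mono_set Metric.ball_subset_closedBall

theorem log_sq_le : ∃ C : ℝ, ∀ (R : ℝ) (_ : 0 < R) (x : ℂ),
    ∫ y in Metric.ball x (2 * R), Real.log (‖x - y‖ / R) ^ 2 ≤ C * R ^ 2 := by
  refine ⟨∫ w in Metric.ball (0 : ℂ) 2, Real.log ‖w‖ ^ 2, fun R hR x => ?_⟩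
  have h1 : ∫ y in Metric.ball x (2 * R), Real.log (‖x - y‖ / R) ^ 2 =
      ∫ z in Metric.ball (0 : ℂ) (2 * R), Real.log (‖z‖ / R) ^ 2 := by
    rw [← integral_indicator Metric.isOpen_ball.measurableSet,
      r1_ball_sub (g := fun z => Real.log (‖z‖ / R) ^ 2) x (2 * R),
      ← integral_indicator Metric.isOpen_ball.measurableSet]
    exact integral_sub_left_eq_self
      ((Metric.ball (0 : ℂ) (2 * R)).indicator fun z => Real.log (‖z‖ / R) ^ 2) volume x
  have h2 := Measure.setIntegral_comp_smul_of_pos (volume : Measure ℂ)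
    (fun z : ℂ => Real.log (‖z‖ / R) ^ 2) (Metric.ball (0 : ℂ) 2) hR
  rw [smul_ball hR.ne', smul_zero, Real.norm_eq_abs, abs_of_pos hR,
    Complex.finrank_real_complex, mul_comm R 2, smul_eq_mul] at h2
  have h3 : ∀ w : ℂ, Real.log (‖R • w‖ / R) ^ 2 = Real.log ‖w‖ ^ 2 := by
    intro w
    rw [norm_smul, Real.norm_eq_abs, abs_of_pos hR, mul_div_cancel_left₀ _ hR.ne']
  simp only [h3] at h2
  rw [h1, h2]
  have : (R ^ 2)⁻¹ * (∫ z in Metric.ball (0 : ℂ) (2 * R), Real.log (‖z‖ / R) ^ 2) * R ^ 2 =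
      ∫ z in Metric.ball (0 : ℂ) (2 * R), Real.log (‖z‖ / R) ^ 2 := by
    field_simp
  rw [this]

private lemma r1_conv (R : ℝ) (ψ : ℂ → ℝ) :
    (fun x => ∫ y, Real.log (‖x - y‖ / R) * ψ y) =
      (convolution (fun z : ℂ => Real.log (‖z‖ / R)) ψ (ContinuousLinearMap.lsmul ℝ ℝ)
        volume) := by
  ext x
  rw [convolution_lsmul_swap]
  simp only [smul_eq_mul]

private lemma r1_conv_fderiv {ψ : ℂ → ℝ} (hψ : IsTestR ψ) {R : ℝ} (hR : 0 < R) (x v : ℂ) :
    fderiv ℝ (fun x => ∫ y, Real.log (‖x - y‖ / R) * ψ y) x v =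
      ∫ y, Real.log (‖x - y‖ / R) * fderiv ℝ ψ y v := by
  have h1 := hψ.2.hasFDerivAt_convolution_right (ContinuousLinearMap.lsmul ℝ ℝ)
    (log_kernel_locInt hR) (hψ.1.of_le (by exact_mod_cast le_top)) x
  rw [r1_conv, h1.fderiv, convolution_precompR_apply _ (log_kernel_locInt hR)
    (hψ.2.fderiv ℝ) (hψ.1.continuous_fderiv (by simp)), convolution_lsmul_swap]
  simp only [smul_eq_mul]

/-- convolution of the kernel with a test function is smooth and solves `Δ = 2π ψ`. -/
theorem log_conv_test {ψ : ℂ → ℝ} (hψ : IsTestR ψ) (R : ℝ) (hR : 0 < R) :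
    ContDiff ℝ ∞ (fun x => ∫ y, Real.log (‖x - y‖ / R) * ψ y) ∧
    ∀ x, lapC (fun x => ∫ y, Real.log (‖x - y‖ / R) * ψ y) x = 2 * π * ψ x := by
  constructor
  · rw [r1_conv]
    exact hψ.2.contDiff_convolution_right _ (log_kernel_locInt hR) hψ.1
  · intro x
    have h1 : ∀ v : ℂ, (fun w => fderiv ℝ (fun x => ∫ y, Real.log (‖x - y‖ / R) * ψ y) w v) =
        fun w => ∫ y, Real.log (‖w - y‖ / R) * fderiv ℝ ψ y v :=
      fun v => funext fun w => r1_conv_fderiv hψ hR w v
    rw [lapC, h1, h1, r1_conv_fderiv (r1_fd_test hψ 1) hR,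
      r1_conv_fderiv (r1_fd_test hψ Complex.I) hR, ← log_kernel hψ R hR x]
    have hI : ∀ v : ℂ, Integrable (fun y => Real.log (‖x - y‖ / R) *
        fderiv ℝ (fun w => fderiv ℝ ψ w v) y v) volume := by
      intro v
      have h2 := r1_fd_test (r1_fd_test hψ v) v
      have h3 := h2.2.convolutionExists_right (ContinuousLinearMap.lsmul ℝ ℝ)
        (log_kernel_locInt hR) h2.1.continuous x
      have h4 := (convolutionExistsAt_iff_integrable_swap).1 h3
      simpa using h4
    rw [← integral_add (hI 1) (hI Complex.I)]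
    apply integral_congr_ae
    refine Eventually.of_forall fun y => ?_
    simp only [lapC]
    ring

end Pool.MP_ad5d82_an.Wl
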