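import Pool.Agent.Lib.MP_ad5d82_an.h24.HDefs
import Pool.Agent.Lib.MP_ad5d82_an.h24.R.R1

set_option autoImplicit false

namespace Pool.MP_ad5d82_an.Wl

open Real Set MeasureTheory Filter Topology
open scoped ContDiff

variable {ι : Type} [Fintype ι] [DecidableEq ι]

/-! ### R2 representation of compactly supported functions by their Laplacian -/

private lemma r2_lap_congr {f g : ℂ → ℝ} {z : ℂ} (h : f =ᶠ[𝓝 z] g) : lapC f z = lapC g z := by
  have h1 : ∀ v : ℂ, (fun w => fderiv ℝ f w v) =ᶠ[𝓝 z] fun w => fderiv ℝ g w v := by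
    intro v
    filter_upwards [h.fderiv (𝕜 := ℝ)] with w hw
    rw [hw]
  rw [lapC, lapC, (h1 1).fderiv_eq, (h1 Complex.I).fderiv_eq]

private lemma r2_f_int {f : ℂ → ℝ} {r : ℝ} {x₀ : ℂ} (hf : Integrable (fun z => f z ^ 2) volume)
    (hfm : AEStronglyMeasurable f volume) (hf0 : ∀ z, z ∉ Metric.ball x₀ r → f z = 0) :
    Integrable f volume := by
  have h1 : Integrable ((Metric.ball x₀ r).indicator (fun _ => (1 : ℝ))) volume := by
    rw [integrable_indicator_iff Metric.isOpen_ball.measurableSet]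
    exact integrableOn_const (measure_ball_lt_top.ne)
  refine Integrable.mono' (h1.add hf) hfm (Eventually.of_forall fun z => ?_)
  rw [Real.norm_eq_abs, Pi.add_apply]
  by_cases hz : z ∈ Metric.ball x₀ r
  · rw [indicator_of_mem hz]
    have h2 : |f z| ^ 2 = f z ^ 2 := sq_abs _
    nlinarith [sq_nonneg (|f z| - 1)]
  · rw [hf0 z hz, indicator_of_notMem hz]
    simp

/-- truncated kernel -/
private noncomputable def r2_k (R ρ : ℝ) : ℂ → ℝ :=
  (Metric.ball 0 ρ).indicator (fun z => Real.log (‖z‖ / R))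

private lemma r2_k_int {R : ℝ} (hR : 0 < R) (ρ : ℝ) : Integrable (r2_k R ρ) volume := by
  rw [r2_k, integrable_indicator_iff Metric.isOpen_ball.measurableSet]
  exact ((log_kernel_locInt hR).integrableOn_isCompact (isCompact_closedBall 0 ρ)).mono_set
    Metric.ball_subset_closedBall

private lemma r2_k_eq {R ρ r : ℝ} {x₀ x y : ℂ} (hx : x ∈ Metric.ball x₀ ρ)
    (hy : y ∈ Metric.ball x₀ r) : r2_k R (ρ + r) (x - y) = Real.log (‖x - y‖ / R) := by
  rw [r2_k, indicator_of_mem]
  rw [Metric.mem_ball, dist_eq_norm] at hx hy ⊢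
  rw [sub_zero]
  calc ‖x - y‖ = ‖(x - x₀) - (y - x₀)‖ := by congr 1; ring
    _ ≤ ‖x - x₀‖ + ‖y - x₀‖ := norm_sub_le _ _
    _ < ρ + r := by linarith

private lemma r2_prod {f : ℂ → ℝ} (hf : Integrable f volume) {R : ℝ} (hR : 0 < R) (ρ : ℝ) :
    Integrable (fun p : ℂ × ℂ => f p.2 * r2_k R ρ (p.1 - p.2)) (volume.prod volume) := by
  have := hf.convolution_integrand (ContinuousLinearMap.lsmul ℝ ℝ) (r2_k_int hR ρ)
  simpa using this

/-- local integrability of the logarithmic potential -/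
theorem log_pot_locInt {f : ℂ → ℝ} {r : ℝ} {x₀ : ℂ} (hf : Integrable f volume)
    (hf0 : ∀ z, z ∉ Metric.ball x₀ r → f z = 0) {R : ℝ} (hR : 0 < R) :
    LocallyIntegrable (fun x => ∫ y, Real.log (‖x - y‖ / R) * f y) volume := by
  rw [locallyIntegrable_iff]
  intro K hK
  obtain ⟨ρ, hρ⟩ := hK.isBounded.subset_ball x₀
  have h1 : Integrable (fun x => ∫ y, f y * r2_k R (ρ + r) (x - y)) volume :=
    (r2_prod hf hR (ρ + r)).integral_prod_left
  refine h1.integrableOn.congr_fun (s := K) (fun x hx => ?_) hK.measurableSet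
  refine integral_congr_ae (Eventually.of_forall fun y => ?_)
  by_cases hy : y ∈ Metric.ball x₀ r
  · simp only
    rw [r2_k_eq (hρ hx) hy, mul_comm]
  · simp only
    rw [hf0 y hy, zero_mul, mul_zero]

theorem log_repr (u f : ℂ → ℝ) (r : ℝ) (x₀ : ℂ) (R : ℝ) (hR : 0 < R)
    (hu : Integrable u volume) (hf : Integrable (fun z => f z ^ 2) volume)
    (hfm : AEStronglyMeasurable f volume)
    (hu0 : ∀ z, z ∉ Metric.ball x₀ r → u z = 0) (hf0 : ∀ z, z ∉ Metric.ball x₀ r → f z = 0)
    (h : ∀ φ : ℂ → ℝ, IsTestR φ → ∫ z, u z * lapC φ z = ∫ z, f z * φ z) :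
    ∀ᵐ x, 2 * π * u x = ∫ y, Real.log (‖x - y‖ / R) * f y := by
  have hfi : Integrable f volume := r2_f_int hf hfm hf0
  refine ae_eq_of_integral_contDiff_smul_eq (hu.const_mul (2 * π)).locallyIntegrable
    (log_pot_locInt hfi hf0 hR) (fun g hg hgc => ?_)
  have hgt : IsTestR g := ⟨hg, hgc⟩
  obtain ⟨ρ, hρ⟩ := hgc.isCompact.isBounded.subset_ball x₀
  have hg0 : ∀ y, y ∉ Metric.ball x₀ ρ → g y = 0 := by
    intro y hy
    by_contra hne
    exact hy (hρ (subset_tsupport g (Function.mem_support.2 hne)))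
  obtain ⟨hΦ1, hΦ2⟩ := log_conv_test hgt R hR
  set Φ : ℂ → ℝ := fun x => ∫ y, Real.log (‖x - y‖ / R) * g y with hΦ
  -- cut-off
  let η : ContDiffBump x₀ := ⟨|r| + 1, |r| + 2, by positivity, by linarith⟩
  have hηΦ : IsTestR (fun x => η x * Φ x) :=
    ⟨η.contDiff.mul hΦ1, η.hasCompactSupport.mul_right⟩
  have hη1 : ∀ z ∈ Metric.ball x₀ r, (fun x => η x * Φ x) =ᶠ[𝓝 z] Φ := by
    intro z hz
    have h1 : Metric.ball x₀ (|r| + 1) ∈ 𝓝 z := by
      apply Metric.isOpen_ball.mem_nhds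
      rw [Metric.mem_ball] at hz ⊢
      linarith [le_abs_self r]
    filter_upwards [h1] with w hw
    rw [η.one_of_mem_closedBall (Metric.ball_subset_closedBall hw), one_mul]
  have e1 : ∫ x, g x • (2 * π * u x) = ∫ x, u x * lapC (fun x => η x * Φ x) x := by
    refine integral_congr_ae (Eventually.of_forall fun x => ?_)
    simp only [smul_eq_mul]
    by_cases hx : x ∈ Metric.ball x₀ r
    · rw [r2_lap_congr (hη1 x hx), hΦ2 x]
      ring
    · rw [hu0 x hx]
      ring
  have e2 : ∫ x, f x * (η x * Φ x) = ∫ x, f x * Φ x := by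
    refine integral_congr_ae (Eventually.of_forall fun x => ?_)
    simp only
    by_cases hx : x ∈ Metric.ball x₀ r
    · rw [(hη1 x hx).eq_of_nhds]
    · rw [hf0 x hx]
      ring
  rw [e1, h _ hηΦ, e2]
  -- Fubini
  have hG : Integrable (fun p : ℂ × ℂ => g p.1 * (f p.2 * r2_k R (ρ + r) (p.1 - p.2)))
      (volume.prod volume) := by
    obtain ⟨C, hC⟩ := hg.continuous.bounded_above_of_compact_support hgc
    refine (r2_prod hfi hR (ρ + r)).bdd_mul (c := C) ?_ (Eventually.of_forall fun p => hC p.1)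
    exact (hg.continuous.comp continuous_fst).aestronglyMeasurable
  have e3 : ∫ x, f x * Φ x =
      ∫ x, ∫ y, g y * (f x * r2_k R (ρ + r) (y - x)) := by
    refine integral_congr_ae (Eventually.of_forall fun x => ?_)
    simp only [hΦ]
    rw [← integral_const_mul]
    refine integral_congr_ae (Eventually.of_forall fun y => ?_)
    simp only
    by_cases hx : x ∈ Metric.ball x₀ r
    · by_cases hy : y ∈ Metric.ball x₀ ρ
      · rw [r2_k_eq hy hx, norm_sub_rev]
        ring
      · rw [hg0 y hy]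
        ring
    · rw [hf0 x hx]
      ring
  have e4 : ∫ x, ∫ y, g y * (f x * r2_k R (ρ + r) (y - x)) =
      ∫ y, ∫ x, g y * (f x * r2_k R (ρ + r) (y - x)) :=
    integral_integral_swap (f := fun x y => g y * (f x * r2_k R (ρ + r) (y - x))) hG.swap
  rw [e3, e4]
  refine integral_congr_ae (Eventually.of_forall fun y => ?_)
  simp only [smul_eq_mul]
  rw [← integral_const_mul]
  refine integral_congr_ae (Eventually.of_forall fun x => ?_)
  simp only
  by_cases hy : y ∈ Metric.ball x₀ ρ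
  · by_cases hx : x ∈ Metric.ball x₀ r
    · rw [r2_k_eq hy hx]
      ring
    · rw [hf0 x hx]
      ring
  · rw [hg0 y hy]
    ring

end Pool.MP_ad5d82_an.Wl
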