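import Pool.Agent.Lib.MP_ad5d82_an.h24.HDefs
import Pool.Agent.Lib.MP_ad5d82_an.h24.H.H1
import Pool.Agent.Lib.MP_ad5d82_an.h24.H.H9
import Pool.Agent.Lib.MP_ad5d82_an.h24.R.R1
import Pool.Agent.Lib.MP_ad5d82_an.h24.R.R2

set_option autoImplicit false

namespace Pool.MP_ad5d82_an.Wl

open Real Set MeasureTheory Filter Topology
open scoped ContDiff

variable {ι : Type} [Fintype ι] [DecidableEq ι]

/-! ### R3 local supremum bound -/

private lemma r3_cs {μ : Measure ℂ} {a b : ℂ → ℝ} (ha : AEStronglyMeasurable a μ)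
    (hb : AEStronglyMeasurable b μ) (ha2 : Integrable (fun z => a z ^ 2) μ)
    (hb2 : Integrable (fun z => b z ^ 2) μ) :
    |∫ z, a z * b z ∂μ| ≤ Real.sqrt (∫ z, a z ^ 2 ∂μ) * Real.sqrt (∫ z, b z ^ 2 ∂μ) := by
  have h1 : |∫ z, a z * b z ∂μ| ≤ ∫ z, |a z| * |b z| ∂μ := by
    have := abs_integral_le_integral_abs (f := fun z => a z * b z) (μ := μ)
    simpa only [abs_mul] using this
  have hp : Real.HolderConjugate 2 2 := Real.HolderConjugate.two_two
  have hm : ∀ c : ℂ → ℝ, AEStronglyMeasurable c μ → Integrable (fun z => c z ^ 2) μ →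
      MemLp (fun z => |c z|) (ENNReal.ofReal 2) μ := by
    intro c hc hc2
    have h2 : MemLp c 2 μ := (memLp_two_iff_integrable_sq hc).2 hc2
    have h3 := h2.norm
    rw [show ENNReal.ofReal 2 = 2 by simp]
    exact h3
  have h4 := integral_mul_le_Lp_mul_Lq_of_nonneg hp
    (Eventually.of_forall fun z => abs_nonneg (a z)) (Eventually.of_forall fun z => abs_nonneg (b z))
    (hm a ha ha2) (hm b hb hb2)
  refine h1.trans (h4.trans (le_of_eq ?_))
  rw [Real.sqrt_eq_rpow, Real.sqrt_eq_rpow]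
  congr 2
  · refine integral_congr_ae (Eventually.of_forall fun z => ?_)
    simp
  · refine integral_congr_ae (Eventually.of_forall fun z => ?_)
    simp

private lemma r3_fd_test {φ : ℂ → ℝ} (hφ : IsTestR φ) (v : ℂ) :
    IsTestR (fun w => fderiv ℝ φ w v) := by
  refine ⟨?_, hφ.2.fderiv_apply ℝ v⟩
  exact (hφ.1.fderiv_right (m := ∞) (by exact_mod_cast le_top)).clm_apply contDiff_const

private lemma r3_mul_test {φ ψ : ℂ → ℝ} (hφ : IsTestR φ) (hψ : ContDiff ℝ ∞ ψ) :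
    IsTestR (fun w => φ w * ψ w) := ⟨hφ.1.mul hψ, hφ.2.mul_right⟩

private lemma r3_diff {φ : ℂ → ℝ} (hφ : ContDiff ℝ ∞ φ) (z : ℂ) : DifferentiableAt ℝ φ z :=
  (hφ.differentiable (by simp)).differentiableAt

private lemma r3_fd_mul {φ ψ : ℂ → ℝ} (hφ : ContDiff ℝ ∞ φ) (hψ : ContDiff ℝ ∞ ψ) (z v : ℂ) :
    fderiv ℝ (fun w => φ w * ψ w) z v = φ z * fderiv ℝ ψ z v + ψ z * fderiv ℝ φ z v := by
  rw [fderiv_fun_mul (r3_diff hφ z) (r3_diff hψ z)]
  simp

private lemma r3_lin5 {a1 a2 a3 a4 a5 : ℂ → ℝ} (h1 : Integrable a1 volume)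
    (h2 : Integrable a2 volume) (h3 : Integrable a3 volume) (h4 : Integrable a4 volume)
    (h5 : Integrable a5 volume) : ∫ z, (a1 z + a2 z - 2 * (a3 z + a4 z) + a5 z) =
      (∫ z, a1 z) + (∫ z, a2 z) - 2 * ((∫ z, a3 z) + ∫ z, a4 z) + ∫ z, a5 z := by
  have k1 : Integrable (fun z => a1 z + a2 z) volume := h1.add h2
  have k2 : Integrable (fun z => 2 * (a3 z + a4 z)) volume := (h3.add h4).const_mul 2
  have k3 : Integrable (fun z => a1 z + a2 z - 2 * (a3 z + a4 z)) volume := k1.sub k2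
  rw [integral_add k3 h5, integral_sub k1 k2, integral_add h1 h2, integral_const_mul,
    integral_add h3 h4]

private lemma r3_lin4 {a1 a2 a3 a4 : ℂ → ℝ} (h1 : Integrable a1 volume)
    (h2 : Integrable a2 volume) (h3 : Integrable a3 volume) (h4 : Integrable a4 volume) :
    ∫ z, (a1 z + 2 * (a2 z + a3 z) + a4 z) =
      (∫ z, a1 z) + 2 * ((∫ z, a2 z) + ∫ z, a3 z) + ∫ z, a4 z := by
  have k2 : Integrable (fun z => 2 * (a2 z + a3 z)) volume := (h2.add h3).const_mul 2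
  have k3 : Integrable (fun z => a1 z + 2 * (a2 z + a3 z)) volume := h1.add k2
  rw [integral_add k3 h4, integral_add h1 k2, integral_const_mul, integral_add h2 h3]

private lemma r3_fd_smooth {φ : ℂ → ℝ} (hφ : ContDiff ℝ ∞ φ) (v : ℂ) :
    ContDiff ℝ ∞ (fun w => fderiv ℝ φ w v) :=
  (hφ.fderiv_right (m := ∞) (by exact_mod_cast le_top)).clm_apply contDiff_const

private lemma r3_fd2_mul {φ ψ : ℂ → ℝ} (hφ : ContDiff ℝ ∞ φ) (hψ : ContDiff ℝ ∞ ψ) (z v : ℂ) :
    fderiv ℝ (fun w => fderiv ℝ (fun w => φ w * ψ w) w v) z v =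
      φ z * fderiv ℝ (fun w => fderiv ℝ ψ w v) z v + ψ z * fderiv ℝ (fun w => fderiv ℝ φ w v) z v
        + 2 * (fderiv ℝ φ z v * fderiv ℝ ψ z v) := by
  have h1 : (fun w => fderiv ℝ (fun w => φ w * ψ w) w v) =
      fun w => φ w * fderiv ℝ ψ w v + ψ w * fderiv ℝ φ w v := funext fun w => r3_fd_mul hφ hψ w v
  have h2 : fderiv ℝ (fun w => φ w * fderiv ℝ ψ w v + ψ w * fderiv ℝ φ w v) z =
      fderiv ℝ (fun w => φ w * fderiv ℝ ψ w v) z + fderiv ℝ (fun w => ψ w * fderiv ℝ φ w v) z :=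
    fderiv_fun_add (r3_diff (hφ.mul (r3_fd_smooth hψ v)) z) (r3_diff (hψ.mul (r3_fd_smooth hφ v)) z)
  rw [h1, h2, _root_.add_apply, r3_fd_mul hφ (r3_fd_smooth hψ v),
    r3_fd_mul hψ (r3_fd_smooth hφ v)]
  ring

/-- the pointwise identity behind the weak form of the equation for `χ v` -/
private lemma r3_point {χ φ : ℂ → ℝ} (hχ : ContDiff ℝ ∞ χ) (hφ : ContDiff ℝ ∞ φ) (z : ℂ) :
    χ z * lapC φ z = lapC (fun w => φ w * χ w) z
      - 2 * (fderiv ℝ (fun w => φ w * fderiv ℝ χ w 1) z 1 +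
        fderiv ℝ (fun w => φ w * fderiv ℝ χ w Complex.I) z Complex.I) + φ z * lapC χ z := by
  simp only [lapC]
  rw [r3_fd2_mul hφ hχ, r3_fd2_mul hφ hχ, r3_fd_mul hφ (r3_fd_smooth hχ 1),
    r3_fd_mul hφ (r3_fd_smooth hχ Complex.I)]
  ring

private lemma r3_comp_meas {U : Fld ι} (hU : IsSob U) (j : ι) :
    AEStronglyMeasurable (fun z => (U z).1 j) volume ∧
    AEStronglyMeasurable (fun z => (U z).2.1 j) volume ∧
    AEStronglyMeasurable (fun z => (U z).2.2 j) volume := by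
  have h := hU.1
  have c1 : Continuous (fun u : Ev ι × Ev ι × Ev ι => u.1 j) := by fun_prop
  have c2 : Continuous (fun u : Ev ι × Ev ι × Ev ι => u.2.1 j) := by fun_prop
  have c3 : Continuous (fun u : Ev ι × Ev ι × Ev ι => u.2.2 j) := by fun_prop
  exact ⟨c1.comp_aestronglyMeasurable h, c2.comp_aestronglyMeasurable h,
    c3.comp_aestronglyMeasurable h⟩

private lemma r3_coord_sq (w : Ev ι) (j : ι) : w j ^ 2 ≤ ‖w‖ ^ 2 := by
  rw [EuclideanSpace.norm_sq_eq]
  have := Finset.single_le_sum (f := fun i => ‖w i‖ ^ 2) (s := Finset.univ)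
    (fun i _ => sq_nonneg _) (Finset.mem_univ j)
  simpa [sq_abs] using this

/-- square integrability of the components -/
private lemma r3_sq {U : Fld ι} (hU : IsSob U) (j : ι) :
    (∀ K : Set ℂ, Bornology.IsBounded K → IntegrableOn (fun z => (U z).1 j ^ 2) K volume) ∧
    Integrable (fun z => (U z).2.1 j ^ 2) volume ∧
    Integrable (fun z => (U z).2.2 j ^ 2) volume := by
  obtain ⟨m1, m2, m3⟩ := r3_comp_meas hU j
  refine ⟨fun K hK => ?_, ?_, ?_⟩
  · obtain ⟨ρ, hρ⟩ := hK.subset_ball 0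
    refine IntegrableOn.mono_set ?_ hρ
    refine Integrable.mono' (hU.integrableOn_sq ρ) (m1.pow 2).restrict
      (Eventually.of_forall fun z => ?_)
    rw [Real.norm_eq_abs, abs_of_nonneg (sq_nonneg _)]
    exact r3_coord_sq _ _
  · refine Integrable.mono' hU.integrable_gsq (m2.pow 2) (Eventually.of_forall fun z => ?_)
    rw [Real.norm_eq_abs, abs_of_nonneg (sq_nonneg _), gsq]
    have := r3_coord_sq (U z).2.1 j
    have := sq_nonneg ‖(U z).2.2‖
    linarith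
  · refine Integrable.mono' hU.integrable_gsq (m3.pow 2) (Eventually.of_forall fun z => ?_)
    rw [Real.norm_eq_abs, abs_of_nonneg (sq_nonneg _), gsq]
    have := r3_coord_sq (U z).2.2 j
    have := sq_nonneg ‖(U z).2.1‖
    linarith

private lemma r3_loc {f : ℂ → ℝ} (hm : AEStronglyMeasurable f volume)
    (h : ∀ K : Set ℂ, Bornology.IsBounded K → IntegrableOn (fun z => f z ^ 2) K volume) :
    LocallyIntegrable f volume := by
  rw [locallyIntegrable_iff]
  intro K hK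
  have h1 : IntegrableOn (fun z => 1 + f z ^ 2) K volume :=
    (integrableOn_const (hK.measure_lt_top.ne)).add (h K hK.isBounded)
  refine Integrable.mono' h1 hm.restrict (Eventually.of_forall fun z => ?_)
  rw [Real.norm_eq_abs]
  have h2 : |f z| ^ 2 = f z ^ 2 := sq_abs _
  nlinarith [sq_nonneg (|f z| - 1)]

private lemma r3_loc_all {U : Fld ι} (hU : IsSob U) (j : ι) :
    LocallyIntegrable (fun z => (U z).1 j) volume ∧
    LocallyIntegrable (fun z => (U z).2.1 j) volume ∧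
    LocallyIntegrable (fun z => (U z).2.2 j) volume := by
  obtain ⟨m1, m2, m3⟩ := r3_comp_meas hU j
  obtain ⟨s1, s2, s3⟩ := r3_sq hU j
  exact ⟨r3_loc m1 s1, r3_loc m2 fun K _ => s2.integrableOn, r3_loc m3 fun K _ => s3.integrableOn⟩

private lemma r3_loc_mul {f g : ℂ → ℝ} (hf : LocallyIntegrable f volume) (hg : IsTestR g) :
    Integrable (fun z => f z * g z) volume := by
  have := hf.integrable_smul_right_of_hasCompactSupport hg.1.continuous hg.2
  simpa using this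

/-- the weak equation of the localised component -/
private lemma r3_weak {U : Fld ι} (hU : IsSob U) (j : ι) {χ f : ℂ → ℝ} (hχ : IsTestR χ)
    (hχf : Integrable (fun z => χ z * f z) volume)
    (h : ∀ φ : ℂ → ℝ, IsTestR φ → tsupport φ ⊆ tsupport χ →
      ∫ z, ((U z).2.1 j * fderiv ℝ φ z 1 + (U z).2.2 j * fderiv ℝ φ z Complex.I)
        = -∫ z, f z * φ z) {φ : ℂ → ℝ} (hφ : IsTestR φ) :
    ∫ z, (χ z * (U z).1 j) * lapC φ z = ∫ z, (χ z * f z +
      2 * (fderiv ℝ χ z 1 * (U z).2.1 j + fderiv ℝ χ z Complex.I * (U z).2.2 j) +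
      (U z).1 j * lapC χ z) * φ z := by
  obtain ⟨l0, l1, l2⟩ := r3_loc_all hU j
  have t0 : IsTestR (fun w => φ w * χ w) := r3_mul_test hφ hχ.1
  have t1 : IsTestR (fun w => φ w * fderiv ℝ χ w 1) := r3_mul_test hφ (r3_fd_smooth hχ.1 1)
  have t2 : IsTestR (fun w => φ w * fderiv ℝ χ w Complex.I) :=
    r3_mul_test hφ (r3_fd_smooth hχ.1 Complex.I)
  have t3 : IsTestR (fun w => φ w * lapC χ w) := by
    refine r3_mul_test hφ ?_
    exact (r3_fd_smooth (r3_fd_smooth hχ.1 1) 1).add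
      (r3_fd_smooth (r3_fd_smooth hχ.1 Complex.I) Complex.I)
  -- the four integrations by parts
  have w1 := (hU.weak_deriv j (r3_fd_test t0 1)).1
  have w2 := (hU.weak_deriv j (r3_fd_test t0 Complex.I)).2
  have w3 := (hU.weak_deriv j t1).1
  have w4 := (hU.weak_deriv j t2).2
  have hsupp : tsupport (fun w => φ w * χ w) ⊆ tsupport χ :=
    closure_mono (fun z hz => by
      rw [Function.mem_support] at hz ⊢
      exact right_ne_zero_of_mul hz)
  have w5 := h _ t0 hsupp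
  rw [integral_add (r3_loc_mul l1 (r3_fd_test t0 1)) (r3_loc_mul l2 (r3_fd_test t0 Complex.I))]
    at w5
  -- left side
  have i1 : Integrable (fun z => (U z).1 j * fderiv ℝ (fun w => fderiv ℝ (fun w => φ w * χ w) w 1)
      z 1) volume := r3_loc_mul l0 (r3_fd_test (r3_fd_test t0 1) 1)
  have i2 : Integrable (fun z => (U z).1 j * fderiv ℝ (fun w => fderiv ℝ (fun w => φ w * χ w) w
      Complex.I) z Complex.I) volume := r3_loc_mul l0 (r3_fd_test (r3_fd_test t0 _) _)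
  have i3 : Integrable (fun z => (U z).1 j * fderiv ℝ (fun w => φ w * fderiv ℝ χ w 1) z 1)
      volume := r3_loc_mul l0 (r3_fd_test t1 1)
  have i4 : Integrable (fun z => (U z).1 j * fderiv ℝ (fun w => φ w * fderiv ℝ χ w Complex.I) z
      Complex.I) volume := r3_loc_mul l0 (r3_fd_test t2 _)
  have i5 : Integrable (fun z => (U z).1 j * (φ z * lapC χ z)) volume := r3_loc_mul l0 t3
  have L : ∫ z, (χ z * (U z).1 j) * lapC φ z =
      (∫ z, (U z).1 j * fderiv ℝ (fun w => fderiv ℝ (fun w => φ w * χ w) w 1) z 1) +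
      (∫ z, (U z).1 j * fderiv ℝ (fun w => fderiv ℝ (fun w => φ w * χ w) w Complex.I) z
        Complex.I) -
      2 * ((∫ z, (U z).1 j * fderiv ℝ (fun w => φ w * fderiv ℝ χ w 1) z 1) +
        ∫ z, (U z).1 j * fderiv ℝ (fun w => φ w * fderiv ℝ χ w Complex.I) z Complex.I) +
      ∫ z, (U z).1 j * (φ z * lapC χ z) := by
    rw [← r3_lin5 i1 i2 i3 i4 i5]
    refine integral_congr_ae (Eventually.of_forall fun z => ?_)
    have hp := r3_point hχ.1 hφ.1 z
    simp only [lapC] at hp ⊢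
    linear_combination ((U z).1 j) * hp
  -- right side
  have j1 : Integrable (fun z => (χ z * f z) * φ z) volume := by
    obtain ⟨C, hC⟩ := hφ.1.continuous.bounded_above_of_compact_support hφ.2
    have := hχf.bdd_mul (c := C) hφ.1.continuous.aestronglyMeasurable (Eventually.of_forall hC)
    refine this.congr (Eventually.of_forall fun z => ?_)
    simp only
    ring
  have j2 : Integrable (fun z => (U z).2.1 j * (φ z * fderiv ℝ χ z 1)) volume :=
    r3_loc_mul l1 t1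
  have j3 : Integrable (fun z => (U z).2.2 j * (φ z * fderiv ℝ χ z Complex.I)) volume :=
    r3_loc_mul l2 t2
  have Rr : ∫ z, (χ z * f z +
      2 * (fderiv ℝ χ z 1 * (U z).2.1 j + fderiv ℝ χ z Complex.I * (U z).2.2 j) +
      (U z).1 j * lapC χ z) * φ z =
      (∫ z, (χ z * f z) * φ z) + 2 * ((∫ z, (U z).2.1 j * (φ z * fderiv ℝ χ z 1)) +
        ∫ z, (U z).2.2 j * (φ z * fderiv ℝ χ z Complex.I)) +
      ∫ z, (U z).1 j * (φ z * lapC χ z) := by
    rw [← r3_lin4 j1 j2 j3 i5]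
    refine integral_congr_ae (Eventually.of_forall fun z => ?_)
    simp only
    ring
  have w6 : ∫ z, f z * (φ z * χ z) = ∫ z, (χ z * f z) * φ z := by
    refine integral_congr_ae (Eventually.of_forall fun z => ?_)
    simp only
    ring
  rw [L, Rr]
  rw [w6] at w5
  linarith

/-- rescaled functions -/
private lemma r3_scale {g : ℂ → ℝ} (hg : ContDiff ℝ ∞ g) (R : ℝ) (x₀ z v : ℂ) :
    fderiv ℝ (fun z => g (R⁻¹ • (z - x₀))) z v = R⁻¹ * fderiv ℝ g (R⁻¹ • (z - x₀)) v := by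
  have h1 : HasFDerivAt (fun z : ℂ => R⁻¹ • (z - x₀)) (R⁻¹ • ContinuousLinearMap.id ℝ ℂ) z :=
    ((hasFDerivAt_id z).sub_const x₀).const_smul R⁻¹
  have h2 := ((r3_diff hg (R⁻¹ • (z - x₀))).hasFDerivAt.comp z h1).fderiv
  have h3 : (g ∘ fun z : ℂ => R⁻¹ • (z - x₀)) = fun z => g (R⁻¹ • (z - x₀)) := rfl
  rw [h3] at h2
  rw [h2]
  simp

private lemma r3_aff (R : ℝ) (x₀ : ℂ) : ContDiff ℝ ∞ (fun z : ℂ => R⁻¹ • (z - x₀)) := by
  fun_prop

private lemma r3_scale_lap {g : ℂ → ℝ} (hg : ContDiff ℝ ∞ g) (R : ℝ) (x₀ z : ℂ) :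
    lapC (fun z => g (R⁻¹ • (z - x₀))) z = R⁻¹ ^ 2 * lapC g (R⁻¹ • (z - x₀)) := by
  have h1 : ∀ v : ℂ, fderiv ℝ (fun w => fderiv ℝ (fun z => g (R⁻¹ • (z - x₀))) w v) z v =
      R⁻¹ ^ 2 * fderiv ℝ (fun w => fderiv ℝ g w v) (R⁻¹ • (z - x₀)) v := by
    intro v
    have h2 : (fun w => fderiv ℝ (fun z => g (R⁻¹ • (z - x₀))) w v) =
        fun w => R⁻¹ * (fun u => fderiv ℝ g u v) (R⁻¹ • (w - x₀)) :=
      funext fun w => r3_scale hg R x₀ w v
    have hs : ContDiff ℝ ∞ (fun z : ℂ => (fun u => fderiv ℝ g u v) (R⁻¹ • (z - x₀))) :=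
      (r3_fd_smooth hg v).comp (r3_aff R x₀)
    rw [h2, fderiv_const_mul (r3_diff hs z), _root_.smul_apply,
      r3_scale (r3_fd_smooth hg v)]
    simp only [smul_eq_mul]
    ring
  simp only [lapC]
  rw [h1, h1]
  ring

private lemma r3_cutoff : ∃ M : ℝ, 0 ≤ M ∧ ∀ (R : ℝ) (_ : 0 < R) (x₀ : ℂ), ∃ χ : ℂ → ℝ,
    IsTestR χ ∧ tsupport χ ⊆ Metric.ball x₀ R ∧ (∀ z ∈ Metric.ball x₀ (R / 2), χ z = 1) ∧
    ∀ z, |χ z| ≤ 1 ∧ |fderiv ℝ χ z 1| ≤ M / R ∧ |fderiv ℝ χ z Complex.I| ≤ M / R ∧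
      |lapC χ z| ≤ M / R ^ 2 := by
  let b : ContDiffBump (0 : ℂ) := ⟨1 / 2, 3 / 4, by norm_num, by norm_num⟩
  have hb : IsTestR (fun z => b z) := ⟨b.contDiff, b.hasCompactSupport⟩
  have hb1 := r3_fd_test hb 1
  have hb2 := r3_fd_test hb Complex.I
  have hb3 : IsTestR (lapC (fun z => b z)) :=
    ⟨(r3_fd_test hb1 1).1.add (r3_fd_test hb2 Complex.I).1,
      (r3_fd_test hb1 1).2.add (r3_fd_test hb2 Complex.I).2⟩
  obtain ⟨C1, hC1⟩ := hb1.1.continuous.bounded_above_of_compact_support hb1.2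
  obtain ⟨C2, hC2⟩ := hb2.1.continuous.bounded_above_of_compact_support hb2.2
  obtain ⟨C3, hC3⟩ := hb3.1.continuous.bounded_above_of_compact_support hb3.2
  have p1 : 0 ≤ C1 := (norm_nonneg _).trans (hC1 0)
  have p2 : 0 ≤ C2 := (norm_nonneg _).trans (hC2 0)
  have p3 : 0 ≤ C3 := (norm_nonneg _).trans (hC3 0)
  refine ⟨C1 + C2 + C3, by positivity, fun R hR x₀ => ?_⟩
  have hs : ContDiff ℝ ∞ (fun z : ℂ => R⁻¹ • (z - x₀)) := r3_aff R x₀
  have hnorm : ∀ z : ℂ, ‖R⁻¹ • (z - x₀)‖ = ‖z - x₀‖ / R := by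
    intro z
    rw [norm_smul, Real.norm_eq_abs, abs_of_pos (inv_pos.2 hR), div_eq_inv_mul]
  have hsupp : tsupport (fun z => b (R⁻¹ • (z - x₀))) ⊆ Metric.closedBall x₀ (3 / 4 * R) := by
    refine closure_minimal (fun z hz => ?_) Metric.isClosed_closedBall
    have h1 : R⁻¹ • (z - x₀) ∈ Function.support b := hz
    rw [b.support_eq, Metric.mem_ball, dist_zero_right, hnorm, div_lt_iff₀ hR] at h1
    rw [Metric.mem_closedBall, dist_eq_norm]
    exact h1.le
  refine ⟨fun z => b (R⁻¹ • (z - x₀)), ⟨b.contDiff.comp hs, ?_⟩, ?_, ?_, ?_⟩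
  · exact HasCompactSupport.of_support_subset_isCompact (isCompact_closedBall x₀ (3 / 4 * R))
      ((subset_tsupport _).trans hsupp)
  · refine hsupp.trans (Metric.closedBall_subset_ball ?_)
    linarith
  · intro z hz
    apply b.one_of_mem_closedBall
    rw [Metric.mem_closedBall, dist_zero_right, hnorm, div_le_iff₀ hR]
    rw [Metric.mem_ball, dist_eq_norm] at hz
    change _ ≤ 1 / 2 * R
    linarith
  · intro z
    refine ⟨?_, ?_, ?_, ?_⟩
    · rw [abs_of_nonneg b.nonneg]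
      exact b.le_one
    · rw [r3_scale hb.1, abs_mul, abs_of_pos (inv_pos.2 hR), div_eq_inv_mul]
      apply mul_le_mul_of_nonneg_left _ (inv_pos.2 hR).le
      have := hC1 (R⁻¹ • (z - x₀))
      rw [Real.norm_eq_abs] at this
      linarith
    · rw [r3_scale hb.1, abs_mul, abs_of_pos (inv_pos.2 hR), div_eq_inv_mul]
      apply mul_le_mul_of_nonneg_left _ (inv_pos.2 hR).le
      have := hC2 (R⁻¹ • (z - x₀))
      rw [Real.norm_eq_abs] at this
      linarith
    · rw [r3_scale_lap hb.1, abs_mul, abs_of_nonneg (by positivity : 0 ≤ R⁻¹ ^ 2), inv_pow,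
        div_eq_inv_mul]
      apply mul_le_mul_of_nonneg_left _ (by positivity)
      have := hC3 (R⁻¹ • (z - x₀))
      rw [Real.norm_eq_abs] at this
      linarith

theorem local_sup : ∃ C : ℝ, ∀ (R : ℝ) (_ : 0 < R) (x₀ : ℂ) (U : Fld ι) (_ : IsSob U) (j : ι)
    (f : ℂ → ℝ), AEStronglyMeasurable f volume →
    IntegrableOn (fun z => f z ^ 2) (Metric.ball x₀ R) volume →
    (∀ φ : ℂ → ℝ, IsTestR φ → tsupport φ ⊆ Metric.ball x₀ R →
      ∫ z, ((U z).2.1 j * fderiv ℝ φ z 1 + (U z).2.2 j * fderiv ℝ φ z Complex.I)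
        = -∫ z, f z * φ z) →
    ∀ᵐ x : ℂ, x ∈ Metric.ball x₀ (R / 2) →
      |(U x).1 j| ≤ C * (R * Real.sqrt (∫ z in Metric.ball x₀ R, f z ^ 2)
        + Real.sqrt (∫ z in Metric.ball x₀ R, ((U z).2.1 j ^ 2 + (U z).2.2 j ^ 2))
        + R⁻¹ * Real.sqrt (∫ z in Metric.ball x₀ R, (U z).1 j ^ 2)) := by
  obtain ⟨M, hM0, hM⟩ := r3_cutoff
  obtain ⟨C0, hC0⟩ := log_sq_le
  set C0' : ℝ := max C0 0 with hC0'
  have hC0'0 : 0 ≤ C0' := le_max_right _ _
  refine ⟨Real.sqrt C0' * (2 + 6 * M), fun R hR x₀ U hU j f hfm hf2 heq => ?_⟩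
  obtain ⟨χ, hχ, hχs, hχ1, hχb⟩ := hM R hR x₀
  obtain ⟨m0, m1, m2⟩ := r3_comp_meas hU j
  obtain ⟨s0, s1, s2⟩ := r3_sq hU j
  obtain ⟨l0, l1, l2⟩ := r3_loc_all hU j
  set B : Set ℂ := Metric.ball x₀ R with hB
  have hBm : MeasurableSet B := Metric.isOpen_ball.measurableSet
  have hχ0 : ∀ z, z ∉ B → χ z = 0 := fun z hz => image_eq_zero_of_notMem_tsupport fun h => hz (hχs h)
  have hχd : ∀ v z, z ∉ B → fderiv ℝ χ z v = 0 := by
    intro v z hz
    have h1 : z ∉ tsupport (fderiv ℝ χ) := fun h => hz (hχs (tsupport_fderiv_subset ℝ h))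
    rw [image_eq_zero_of_notMem_tsupport h1]
    simp
  have hχl : ∀ z, z ∉ B → lapC χ z = 0 := by
    intro z hz
    have h2 : ∀ v, fderiv ℝ (fun w => fderiv ℝ χ w v) z v = 0 := by
      intro v
      have h1 : z ∉ tsupport (fderiv ℝ (fun w => fderiv ℝ χ w v)) := by
        intro h
        have h3 := tsupport_fderiv_subset ℝ h
        exact hz (hχs (tsupport_fderiv_apply_subset ℝ v h3))
      rw [image_eq_zero_of_notMem_tsupport h1]
      simp
    rw [lapC, h2, h2, add_zero]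
  -- χ f
  have hfB : Integrable (B.indicator fun z => f z ^ 2) volume := (integrable_indicator_iff hBm).2 hf2
  have hB1 : Integrable (B.indicator fun _ : ℂ => (1 : ℝ)) volume :=
    (integrable_indicator_iff hBm).2 (integrableOn_const measure_ball_lt_top.ne)
  have hχf : Integrable (fun z => χ z * f z) volume := by
    refine Integrable.mono' (hB1.add hfB) (hχ.1.continuous.aestronglyMeasurable.mul hfm)
      (Eventually.of_forall fun z => ?_)
    rw [Real.norm_eq_abs, Pi.add_apply]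
    by_cases hz : z ∈ B
    · rw [indicator_of_mem hz, indicator_of_mem hz, abs_mul]
      have h1 := (hχb z).1
      have h2 : |f z| ^ 2 = f z ^ 2 := sq_abs _
      have h3 : |χ z| * |f z| ≤ 1 * |f z| := mul_le_mul_of_nonneg_right h1 (abs_nonneg _)
      nlinarith [sq_nonneg (|f z| - 1)]
    · rw [hχ0 z hz, indicator_of_notMem hz, indicator_of_notMem hz]
      simp
  have hweak := fun φ (hφ : IsTestR φ) => r3_weak hU j hχ hχf
    (fun φ hφ hs => heq φ hφ (hs.trans hχs)) hφ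
  set u : ℂ → ℝ := fun z => χ z * (U z).1 j with hu
  set F : ℂ → ℝ := fun z => χ z * f z +
      2 * (fderiv ℝ χ z 1 * (U z).2.1 j + fderiv ℝ χ z Complex.I * (U z).2.2 j) +
      (U z).1 j * lapC χ z with hF
  have hFm : AEStronglyMeasurable F volume := by
    have c1 : Continuous (fun z => fderiv ℝ χ z 1) := (r3_fd_test hχ 1).1.continuous
    have c2 : Continuous (fun z => fderiv ℝ χ z Complex.I) := (r3_fd_test hχ _).1.continuous
    have c3 : Continuous (lapC χ) :=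
      ((r3_fd_test (r3_fd_test hχ 1) 1).1.add (r3_fd_test (r3_fd_test hχ _) _).1).continuous
    exact ((hχ.1.continuous.aestronglyMeasurable.mul hfm).add
      (((c1.aestronglyMeasurable.mul m1).add (c2.aestronglyMeasurable.mul m2)).const_mul 2)).add
      (m0.mul c3.aestronglyMeasurable)
  have hF0 : ∀ z, z ∉ B → F z = 0 := by
    intro z hz
    simp only [hF]
    rw [hχ0 z hz, hχd 1 z hz, hχd Complex.I z hz, hχl z hz]
    ring
  have hu0 : ∀ z, z ∉ B → u z = 0 := by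
    intro z hz
    simp only [hu]
    rw [hχ0 z hz, zero_mul]
  have hui : Integrable u volume := by
    refine (r3_loc_mul l0 hχ).congr (Eventually.of_forall fun z => ?_)
    simp only [hu]
    ring
  -- the bound of F²
  set Q : ℂ → ℝ := fun z => 3 * (f z ^ 2 + 8 * (M / R) ^ 2 * ((U z).2.1 j ^ 2 + (U z).2.2 j ^ 2) +
    (M / R ^ 2) ^ 2 * (U z).1 j ^ 2) with hQ
  have hFQ : ∀ z ∈ B, F z ^ 2 ≤ Q z := by
    intro z _
    obtain ⟨b0, b1, b2, b3⟩ := hχb z
    set a := χ z * f z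
    set b := 2 * (fderiv ℝ χ z 1 * (U z).2.1 j + fderiv ℝ χ z Complex.I * (U z).2.2 j)
    set c := (U z).1 j * lapC χ z
    have ha : a ^ 2 ≤ f z ^ 2 := by
      have h1 : χ z ^ 2 ≤ 1 := by rw [← sq_abs]; nlinarith [abs_nonneg (χ z)]
      calc a ^ 2 = χ z ^ 2 * f z ^ 2 := by ring
        _ ≤ 1 * f z ^ 2 := mul_le_mul_of_nonneg_right h1 (sq_nonneg _)
        _ = f z ^ 2 := one_mul _
    have hMR : 0 ≤ M / R := by positivity
    have d1 : fderiv ℝ χ z 1 ^ 2 ≤ (M / R) ^ 2 := by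
      rw [← sq_abs]; exact pow_le_pow_left₀ (abs_nonneg _) b1 2
    have d2 : fderiv ℝ χ z Complex.I ^ 2 ≤ (M / R) ^ 2 := by
      rw [← sq_abs]; exact pow_le_pow_left₀ (abs_nonneg _) b2 2
    have d3 : lapC χ z ^ 2 ≤ (M / R ^ 2) ^ 2 := by
      rw [← sq_abs]; exact pow_le_pow_left₀ (abs_nonneg _) b3 2
    have hb : b ^ 2 ≤ 8 * (M / R) ^ 2 * ((U z).2.1 j ^ 2 + (U z).2.2 j ^ 2) := by
      have e1 : b ^ 2 ≤ 8 * (fderiv ℝ χ z 1 ^ 2 * (U z).2.1 j ^ 2 +
          fderiv ℝ χ z Complex.I ^ 2 * (U z).2.2 j ^ 2) := by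
        nlinarith [sq_nonneg (fderiv ℝ χ z 1 * (U z).2.1 j -
          fderiv ℝ χ z Complex.I * (U z).2.2 j)]
      have e2 : fderiv ℝ χ z 1 ^ 2 * (U z).2.1 j ^ 2 ≤ (M / R) ^ 2 * (U z).2.1 j ^ 2 :=
        mul_le_mul_of_nonneg_right d1 (sq_nonneg _)
      have e3 : fderiv ℝ χ z Complex.I ^ 2 * (U z).2.2 j ^ 2 ≤ (M / R) ^ 2 * (U z).2.2 j ^ 2 :=
        mul_le_mul_of_nonneg_right d2 (sq_nonneg _)
      linarith
    have hc : c ^ 2 ≤ (M / R ^ 2) ^ 2 * (U z).1 j ^ 2 := by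
      calc c ^ 2 = lapC χ z ^ 2 * (U z).1 j ^ 2 := by ring
        _ ≤ _ := mul_le_mul_of_nonneg_right d3 (sq_nonneg _)
    have habc : (a + b + c) ^ 2 ≤ 3 * (a ^ 2 + b ^ 2 + c ^ 2) := by
      nlinarith [sq_nonneg (a - b), sq_nonneg (b - c), sq_nonneg (a - c)]
    calc F z ^ 2 = (a + b + c) ^ 2 := rfl
      _ ≤ 3 * (a ^ 2 + b ^ 2 + c ^ 2) := habc
      _ ≤ Q z := by simp only [hQ]; linarith
  have hs0 : IntegrableOn (fun z => (U z).1 j ^ 2) B volume := s0 B Metric.isBounded_ball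
  have hs12 : IntegrableOn (fun z => (U z).2.1 j ^ 2 + (U z).2.2 j ^ 2) B volume :=
    s1.integrableOn.add s2.integrableOn
  have hQi : IntegrableOn Q B volume :=
    ((hf2.add (hs12.const_mul (8 * (M / R) ^ 2))).add (hs0.const_mul ((M / R ^ 2) ^ 2))).const_mul 3
  have hQint : ∫ z in B, Q z = 3 * ((∫ z in B, f z ^ 2) +
      8 * (M / R) ^ 2 * (∫ z in B, ((U z).2.1 j ^ 2 + (U z).2.2 j ^ 2)) +
      (M / R ^ 2) ^ 2 * ∫ z in B, (U z).1 j ^ 2) := by
    simp only [hQ]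
    have k1 : Integrable (fun z => 8 * (M / R) ^ 2 * ((U z).2.1 j ^ 2 + (U z).2.2 j ^ 2))
        (volume.restrict B) := hs12.const_mul (8 * (M / R) ^ 2)
    have k2 : Integrable (fun z => (M / R ^ 2) ^ 2 * (U z).1 j ^ 2) (volume.restrict B) :=
      hs0.const_mul ((M / R ^ 2) ^ 2)
    have k3 : Integrable (fun z => f z ^ 2 + 8 * (M / R) ^ 2 * ((U z).2.1 j ^ 2 +
        (U z).2.2 j ^ 2)) (volume.restrict B) := Integrable.add hf2 k1
    rw [integral_const_mul, integral_add k3 k2, integral_add hf2 k1, integral_const_mul,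
      integral_const_mul]
  have hF2eq : (fun z => F z ^ 2) = B.indicator fun z => F z ^ 2 := by
    ext z
    by_cases hz : z ∈ B
    · rw [indicator_of_mem hz]
    · rw [indicator_of_notMem hz, hF0 z hz]
      simp
  have hF2 : Integrable (fun z => F z ^ 2) volume := by
    rw [hF2eq, integrable_indicator_iff hBm]
    refine Integrable.mono' hQi (hFm.pow 2).restrict ?_
    rw [ae_restrict_iff' hBm]
    refine Eventually.of_forall fun z hz => ?_
    rw [Real.norm_eq_abs, abs_of_nonneg (sq_nonneg _)]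
    exact hFQ z hz
  have hF2le : ∫ z, F z ^ 2 ≤ ∫ z in B, Q z := by
    rw [hF2eq, integral_indicator hBm]
    exact setIntegral_mono_on hF2.integrableOn hQi hBm hFQ
  have hrepr := log_repr u F R x₀ R hR hui hF2 hFm hu0 hF0 hweak
  filter_upwards [hrepr] with x hx hxB
  have hux : u x = (U x).1 j := by
    simp only [hu]
    rw [hχ1 x hxB, one_mul]
  rw [hux] at hx
  -- Cauchy-Schwarz
  have hsub : B ⊆ Metric.ball x (2 * R) := by
    intro y hy
    rw [hB, Metric.mem_ball] at hy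
    rw [Metric.mem_ball] at hxB ⊢
    calc dist y x ≤ dist y x₀ + dist x₀ x := dist_triangle _ _ _
      _ < 2 * R := by rw [dist_comm x₀ x]; linarith
  have hI1 : ∫ y, Real.log (‖x - y‖ / R) * F y =
      ∫ y in Metric.ball x (2 * R), Real.log (‖x - y‖ / R) * F y := by
    rw [← integral_indicator Metric.isOpen_ball.measurableSet]
    refine integral_congr_ae (Eventually.of_forall fun y => ?_)
    by_cases hy : y ∈ Metric.ball x (2 * R)
    · simp only
      rw [indicator_of_mem hy]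
    · simp only
      rw [indicator_of_notMem hy, hF0 y (fun h => hy (hsub h)), mul_zero]
  have hlm : Measurable (fun y : ℂ => Real.log (‖x - y‖ / R)) :=
    Real.measurable_log.comp (((measurable_const.sub measurable_id).norm).div_const R)
  have hcs := r3_cs (μ := volume.restrict (Metric.ball x (2 * R))) hlm.aestronglyMeasurable
    hFm.restrict (log_sq_integrable R hR x (2 * R)) hF2.integrableOn
  rw [← hI1] at hcs
  have hlog : Real.sqrt (∫ y in Metric.ball x (2 * R), Real.log (‖x - y‖ / R) ^ 2) ≤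
      Real.sqrt C0' * R := by
    rw [← Real.sqrt_sq hR.le, ← Real.sqrt_mul hC0'0]
    rw [Real.sqrt_sq hR.le]
    apply Real.sqrt_le_sqrt
    refine (hC0 R hR x).trans ?_
    exact mul_le_mul_of_nonneg_right (le_max_left _ _) (sq_nonneg R)
  have hFs : ∫ y in Metric.ball x (2 * R), F y ^ 2 ≤ ∫ z, F z ^ 2 :=
    setIntegral_le_integral hF2 (Eventually.of_forall fun z => sq_nonneg _)
  set A1 := ∫ z in B, f z ^ 2 with hA1
  set A2 := ∫ z in B, ((U z).2.1 j ^ 2 + (U z).2.2 j ^ 2) with hA2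
  set A3 := ∫ z in B, (U z).1 j ^ 2 with hA3
  have a1 : 0 ≤ A1 := integral_nonneg fun z => sq_nonneg _
  have a2 : 0 ≤ A2 := integral_nonneg fun z => by positivity
  have a3 : 0 ≤ A3 := integral_nonneg fun z => sq_nonneg _
  have hsqF : Real.sqrt (∫ y in Metric.ball x (2 * R), F y ^ 2) ≤
      2 * Real.sqrt A1 + 6 * (M / R) * Real.sqrt A2 + 2 * (M / R ^ 2) * Real.sqrt A3 := by
    have hMR : 0 ≤ M / R := by positivity
    have hMR2 : 0 ≤ M / R ^ 2 := by positivity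
    rw [Real.sqrt_le_left (by positivity)]
    refine (hFs.trans (hF2le.trans (le_of_eq hQint))).trans ?_
    have q1 := Real.sq_sqrt a1
    have q2 := Real.sq_sqrt a2
    have q3 := Real.sq_sqrt a3
    have r1 := Real.sqrt_nonneg A1
    have r2 := Real.sqrt_nonneg A2
    have r3 := Real.sqrt_nonneg A3
    have p12 : 0 ≤ 2 * Real.sqrt A1 * (6 * (M / R) * Real.sqrt A2) := by positivity
    have p13 : 0 ≤ 2 * Real.sqrt A1 * (2 * (M / R ^ 2) * Real.sqrt A3) := by positivity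
    have p23 : 0 ≤ (6 * (M / R) * Real.sqrt A2) * (2 * (M / R ^ 2) * Real.sqrt A3) := by
      positivity
    have e : (2 * Real.sqrt A1 + 6 * (M / R) * Real.sqrt A2 + 2 * (M / R ^ 2) * Real.sqrt A3) ^ 2 =
        4 * Real.sqrt A1 ^ 2 + 36 * (M / R) ^ 2 * Real.sqrt A2 ^ 2 +
        4 * (M / R ^ 2) ^ 2 * Real.sqrt A3 ^ 2 +
        2 * (2 * Real.sqrt A1 * (6 * (M / R) * Real.sqrt A2)) +
        2 * (2 * Real.sqrt A1 * (2 * (M / R ^ 2) * Real.sqrt A3)) +
        2 * ((6 * (M / R) * Real.sqrt A2) * (2 * (M / R ^ 2) * Real.sqrt A3)) := by ring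
    rw [e, q1, q2, q3]
    have t1 : 0 ≤ (M / R) ^ 2 * A2 := by positivity
    have t2 : 0 ≤ (M / R ^ 2) ^ 2 * A3 := by positivity
    linarith
  have hprod : |∫ y, Real.log (‖x - y‖ / R) * F y| ≤ Real.sqrt C0' * R *
      (2 * Real.sqrt A1 + 6 * (M / R) * Real.sqrt A2 + 2 * (M / R ^ 2) * Real.sqrt A3) :=
    hcs.trans (mul_le_mul hlog hsqF (Real.sqrt_nonneg _) (by positivity))
  rw [← hx, abs_mul, abs_of_pos (by positivity : (0 : ℝ) < 2 * π)] at hprod
  have hπ : (1 : ℝ) ≤ 2 * π := by linarith [Real.pi_gt_three]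
  have h1 : |(U x).1 j| ≤ 2 * π * |(U x).1 j| := by nlinarith [abs_nonneg ((U x).1 j)]
  refine h1.trans (hprod.trans ?_)
  have hid : Real.sqrt C0' * R *
      (2 * Real.sqrt A1 + 6 * (M / R) * Real.sqrt A2 + 2 * (M / R ^ 2) * Real.sqrt A3) =
      Real.sqrt C0' * (2 * (R * Real.sqrt A1) + 6 * M * Real.sqrt A2 +
        2 * M * (R⁻¹ * Real.sqrt A3)) := by
    field_simp
  rw [hid, mul_assoc (Real.sqrt C0') (2 + 6 * M)]
  apply mul_le_mul_of_nonneg_left _ (Real.sqrt_nonneg _)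
  have n1 : 0 ≤ R * Real.sqrt A1 := by positivity
  have n2 : 0 ≤ Real.sqrt A2 := Real.sqrt_nonneg _
  have n3 : 0 ≤ R⁻¹ * Real.sqrt A3 := by positivity
  nlinarith [mul_nonneg hM0 n1, mul_nonneg hM0 n2, mul_nonneg hM0 n3]

end Pool.MP_ad5d82_an.Wl
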