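import Pool.Agent.Lib.MP_ad5d82_an.h24.HDefs
import Pool.Agent.Lib.MP_ad5d82_an.h24.R.R1

set_option autoImplicit false

namespace Pool.MP_ad5d82_an.Wl

open Real Set MeasureTheory Filter Topology
open scoped ContDiff

variable {ι : Type} [Fintype ι] [DecidableEq ι]

/-- the weakly singular comparison kernel. -/
private noncomputable def r4q (z : ℂ) : ℝ := (‖z‖ * √‖z‖)⁻¹

private lemma r4q_nonneg (z : ℂ) : 0 ≤ r4q z := by unfold r4q; positivity

private lemma r4q_meas : Measurable r4q := by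
  unfold r4q
  exact ((measurable_norm).mul (measurable_norm.sqrt)).inv

private lemma r4q_locInt : LocallyIntegrable r4q (volume : Measure ℂ) := by
  refine locallyIntegrable_of_norm_le_rpow (C := 1) (α := 3 / 2) (by simp) ?_ ?_
    r4q_meas.aestronglyMeasurable
  · rw [Complex.finrank_real_complex]; norm_num
  · refine Filter.Eventually.of_forall fun z => ?_
    rw [Real.norm_of_nonneg (r4q_nonneg z), one_mul]
    rcases eq_or_ne z 0 with rfl | hz
    · simp [r4q]
    · have hz' : 0 < ‖z‖ := norm_pos_iff.mpr hz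
      unfold r4q
      rw [Real.rpow_neg hz'.le, Real.sqrt_eq_rpow]
      apply le_of_eq
      congr 1
      rw [← Real.rpow_one_add' hz'.le (by norm_num)]
      norm_num

private lemma r4_sub_locInt {f : ℂ → ℝ} (hf : LocallyIntegrable f volume) (x : ℂ) :
    LocallyIntegrable (fun y => f (x - y)) volume := by
  have := hf
  rw [locallyIntegrable_iff] at this ⊢
  intro K hK
  have hK' : IsCompact ((fun y => x - y) ⁻¹' K) := by
    have : (fun y => x - y) ⁻¹' K = (fun y => x - y) '' K := by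
      ext y
      constructor
      · intro hy
        exact ⟨x - y, hy, by simp⟩
      · rintro ⟨z, hz, rfl⟩
        simpa using hz
    rw [this]
    exact hK.image (by fun_prop)
  have h1 := this _ hK'
  have hmp : MeasurePreserving (fun y : ℂ => x - y) volume volume :=
    Measure.measurePreserving_sub_left volume x
  have hemb : MeasurableEmbedding (fun y : ℂ => x - y) :=
    (Homeomorph.subLeft x).measurableEmbedding
  have h2 := (hmp.integrableOn_comp_preimage hemb (f := f) (s := (fun y => x - y) ⁻¹' K)).2 h1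
  have : (fun y => x - y) ⁻¹' ((fun y => x - y) ⁻¹' K) = K := by
    ext y; simp
  rw [this] at h2
  exact h2

/-- the constant in the uniform bounds. -/
private lemma r4_bound (r : ℝ) : ∃ K : ℝ, 0 ≤ K ∧ ∀ (g : ℂ → ℝ) (_ : Measurable g) (M : ℝ)
    (_ : ∀ z, |g z| ≤ M) (_ : ∀ z, r ≤ ‖z‖ → g z = 0) (x : ℂ),
    Integrable (fun y => r4q (x - y) * |g y|) volume ∧
      ∫ y, r4q (x - y) * |g y| ≤ K * M := by
  have hq1 : IntegrableOn r4q (Metric.ball 0 1) volume :=
    (r4q_locInt.integrableOn_isCompact (isCompact_closedBall 0 1)).mono_set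
      Metric.ball_subset_closedBall
  set C₁ : ℝ := ∫ z in Metric.ball (0:ℂ) 1, r4q z with hC₁
  have hC₁0 : 0 ≤ C₁ := integral_nonneg fun z => r4q_nonneg z
  set V : ℝ := volume.real (Metric.ball (0:ℂ) r) with hV
  refine ⟨C₁ + V, by positivity, ?_⟩
  intro g hg M hM h0 x
  have hM0 : 0 ≤ M := (abs_nonneg _).trans (hM 0)
  -- the dominating function
  set D : ℂ → ℝ := fun y => M * ((Metric.ball (0:ℂ) 1).indicator r4q (x - y) +
    (Metric.ball (0:ℂ) r).indicator (fun _ => (1:ℝ)) y) with hD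
  have hi1 : Integrable (fun y => (Metric.ball (0:ℂ) 1).indicator r4q (x - y)) volume := by
    have : Integrable ((Metric.ball (0:ℂ) 1).indicator r4q) volume :=
      (integrable_indicator_iff Metric.isOpen_ball.measurableSet).2 hq1
    exact this.comp_sub_left x
  have hi2 : Integrable ((Metric.ball (0:ℂ) r).indicator (fun _ => (1:ℝ))) volume := by
    refine (integrable_indicator_iff Metric.isOpen_ball.measurableSet).2 ?_
    exact integrableOn_const Metric.isBounded_ball.measure_lt_top.ne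
  have hiD : Integrable D volume := (hi1.add hi2).const_mul M
  have hle : ∀ y, r4q (x - y) * |g y| ≤ D y := by
    intro y
    by_cases hy : r ≤ ‖y‖
    · rw [h0 y hy, abs_zero, mul_zero]
      apply mul_nonneg hM0
      apply add_nonneg
      · exact Set.indicator_nonneg (fun z _ => r4q_nonneg z) _
      · exact Set.indicator_nonneg (fun z _ => zero_le_one) _
    · have hy' : y ∈ Metric.ball (0:ℂ) r := by
        rw [Metric.mem_ball, dist_zero_right]; exact not_le.mp hy
      have h1 : r4q (x - y) ≤ (Metric.ball (0:ℂ) 1).indicator r4q (x - y) +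
          (Metric.ball (0:ℂ) r).indicator (fun _ => (1:ℝ)) y := by
        rw [Set.indicator_of_mem hy']
        by_cases hz : x - y ∈ Metric.ball (0:ℂ) 1
        · rw [Set.indicator_of_mem hz]; linarith
        · rw [Set.indicator_of_notMem hz, zero_add]
          have hz' : 1 ≤ ‖x - y‖ := by
            rw [Metric.mem_ball, dist_zero_right] at hz; exact not_lt.mp hz
          unfold r4q
          apply inv_le_one_of_one_le₀
          have : 1 ≤ √‖x - y‖ := Real.one_le_sqrt.mpr hz'
          nlinarith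
      calc r4q (x - y) * |g y| ≤ r4q (x - y) * M :=
            mul_le_mul_of_nonneg_left (hM y) (r4q_nonneg _)
        _ = M * r4q (x - y) := mul_comm _ _
        _ ≤ D y := mul_le_mul_of_nonneg_left h1 hM0
  have hint : Integrable (fun y => r4q (x - y) * |g y|) volume := by
    refine hiD.mono' ?_ (Filter.Eventually.of_forall fun y => ?_)
    · exact ((r4q_meas.comp (measurable_const.sub measurable_id)).mul hg.abs).aestronglyMeasurable
    · rw [Real.norm_of_nonneg (mul_nonneg (r4q_nonneg _) (abs_nonneg _))]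
      exact hle y
  refine ⟨hint, ?_⟩
  calc ∫ y, r4q (x - y) * |g y| ≤ ∫ y, D y := integral_mono hint hiD hle
    _ = M * (C₁ + V) := by
        rw [hD, integral_const_mul]
        congr 1
        rw [integral_add hi1 hi2]
        congr 1
        · rw [integral_sub_left_eq_self ((Metric.ball (0:ℂ) 1).indicator r4q) volume x,
            integral_indicator Metric.isOpen_ball.measurableSet]
        · rw [integral_indicator Metric.isOpen_ball.measurableSet]
          simp [hV]
    _ = (C₁ + V) * M := mul_comm _ _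

private lemma r4_ineq {s δ : ℝ} (hs : 0 < s) (hδ : 0 < δ) :
    δ ^ 4 / (s * (s ^ 2 + δ ^ 4)) ≤ δ * (s * √s)⁻¹ := by
  set u := √s with hu
  have hu0 : 0 < u := Real.sqrt_pos.mpr hs
  have hus : u ^ 2 = s := Real.sq_sqrt hs.le
  have key : δ ^ 3 * u ≤ s ^ 2 + δ ^ 4 := by
    rw [← hus]
    rcases le_total u δ with h | h
    · have : δ ^ 3 * u ≤ δ ^ 3 * δ := mul_le_mul_of_nonneg_left h (by positivity)
      nlinarith [pow_pos hu0 4]
    · have : δ ^ 3 * u ≤ u ^ 3 * u :=
        mul_le_mul_of_nonneg_right (pow_le_pow_left₀ hδ.le h 3) hu0.le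
      nlinarith [pow_pos hδ 4]
  rw [div_le_iff₀ (by positivity), mul_inv]
  have : δ * (s⁻¹ * u⁻¹) * (s * (s ^ 2 + δ ^ 4)) = δ * (s ^ 2 + δ ^ 4) / u := by
    field_simp
  rw [this, le_div_iff₀ hu0]
  nlinarith

private lemma r4_log_ineq {s δ : ℝ} (hs : 0 < s) (hδ : 0 < δ) :
    |1 / 2 * Real.log (s ^ 2 + δ ^ 4) - Real.log s| ≤ δ ^ 2 * ((s * √s)⁻¹ + 1) := by
  have h1 : 1 / 2 * Real.log (s ^ 2 + δ ^ 4) - Real.log s = 1 / 2 * Real.log (1 + (δ ^ 2 / s) ^ 2) := by
    have : s ^ 2 + δ ^ 4 = s ^ 2 * (1 + (δ ^ 2 / s) ^ 2) := by field_simp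
    rw [this, Real.log_mul (by positivity) (by positivity), Real.log_pow]
    push_cast; ring
  rw [h1]
  have h2 : 0 ≤ Real.log (1 + (δ ^ 2 / s) ^ 2) := Real.log_nonneg (by nlinarith [sq_nonneg (δ ^ 2 / s)])
  rw [abs_of_nonneg (by positivity)]
  have h3 : Real.log (1 + (δ ^ 2 / s) ^ 2) ≤ 2 * (δ ^ 2 / s) := by
    have ht : 0 < δ ^ 2 / s := by positivity
    calc Real.log (1 + (δ ^ 2 / s) ^ 2) ≤ Real.log ((1 + δ ^ 2 / s) ^ 2) := by
          apply Real.log_le_log (by positivity); nlinarith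
      _ = 2 * Real.log (1 + δ ^ 2 / s) := by rw [Real.log_pow]; push_cast; ring
      _ ≤ 2 * (δ ^ 2 / s) := by
          have := Real.log_le_sub_one_of_pos (show 0 < 1 + δ ^ 2 / s by positivity)
          linarith
  have h4 : s⁻¹ ≤ (s * √s)⁻¹ + 1 := by
    rcases le_total s 1 with h | h
    · have : (s)⁻¹ ≤ (s * √s)⁻¹ := by
        apply inv_anti₀ (by positivity)
        have : √s ≤ 1 := Real.sqrt_le_one.mpr h
        nlinarith
      linarith
    · have : s⁻¹ ≤ 1 := inv_le_one_of_one_le₀ h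
      have : 0 ≤ (s * √s)⁻¹ := by positivity
      linarith
  calc 1 / 2 * Real.log (1 + (δ ^ 2 / s) ^ 2) ≤ δ ^ 2 / s := by linarith
    _ = δ ^ 2 * s⁻¹ := by rw [div_eq_mul_inv]
    _ ≤ _ := mul_le_mul_of_nonneg_left h4 (by positivity)

private lemma r4_abs_log {s : ℝ} (hs : 0 ≤ s) : |Real.log s| ≤ (s * √s)⁻¹ + s := by
  rcases eq_or_lt_of_le hs with h | h
  · rw [← h]; simp
  rcases le_total s 1 with h1 | h1
  · have h2 := Real.abs_log_mul_self_lt s h h1
    rw [abs_mul, abs_of_pos h] at h2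
    have h3 : |Real.log s| ≤ s⁻¹ := by
      rw [inv_eq_one_div, le_div_iff₀ h]
      exact h2.le
    have : (s)⁻¹ ≤ (s * √s)⁻¹ := by
      apply inv_anti₀ (by positivity)
      have : √s ≤ 1 := Real.sqrt_le_one.mpr h1
      nlinarith
    linarith
  · rw [abs_of_nonneg (Real.log_nonneg h1)]
    have := Real.log_le_sub_one_of_pos h
    have : 0 ≤ (s * √s)⁻¹ := by positivity
    linarith

/-! ### smoothed kernels -/

private noncomputable def r4N (δ : ℝ) (z : ℂ) : ℝ := 1 / 2 * Real.log (‖z‖ ^ 2 + δ ^ 4)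

/-- the real inner product with `z`. -/
private noncomputable def r4L (z : ℂ) : ℂ →L[ℝ] ℝ := z.re • Complex.reCLM + z.im • Complex.imCLM

private lemma r4L_norm (z : ℂ) : ‖r4L z‖ ≤ ‖z‖ := by
  refine ContinuousLinearMap.opNorm_le_bound _ (norm_nonneg _) fun w => ?_
  have h1 : (r4L z) w = z.re * w.re + z.im * w.im := by simp [r4L]
  rw [h1, Real.norm_eq_abs]
  apply abs_le_of_sq_le_sq _ (by positivity)
  rw [mul_pow, Complex.sq_norm, Complex.sq_norm, Complex.normSq_apply, Complex.normSq_apply]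
  nlinarith [sq_nonneg (z.re * w.im - z.im * w.re)]

private lemma r4L_cont : Continuous r4L := by
  unfold r4L
  exact (Complex.continuous_re.smul continuous_const).add (Complex.continuous_im.smul continuous_const)

private noncomputable def r4K (δ : ℝ) (z : ℂ) : ℂ →L[ℝ] ℝ := (‖z‖ ^ 2 + δ ^ 4)⁻¹ • r4L z

private lemma r4N_hasFDerivAt {δ : ℝ} (hδ : 0 < δ) (z : ℂ) : HasFDerivAt (r4N δ) (r4K δ z) z := by
  have h0 : (r4N δ) = fun z : ℂ => 1 / 2 * Real.log (z.re ^ 2 + z.im ^ 2 + δ ^ 4) := by
    funext w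
    unfold r4N
    rw [Complex.sq_norm, Complex.normSq_apply]
    ring_nf
  have hn : ‖z‖ ^ 2 = z.re ^ 2 + z.im ^ 2 := by
    rw [Complex.sq_norm, Complex.normSq_apply]; ring
  rw [h0]
  have hre : HasFDerivAt (fun z : ℂ => z.re) Complex.reCLM z := Complex.reCLM.hasFDerivAt
  have him : HasFDerivAt (fun z : ℂ => z.im) Complex.imCLM z := Complex.imCLM.hasFDerivAt
  have h1 := ((hre.pow 2).add (him.pow 2)).add_const (δ ^ 4)
  have hne : z.re ^ 2 + z.im ^ 2 + δ ^ 4 ≠ 0 := by positivity
  have h2 := (HasFDerivAt.log (f := fun z : ℂ => z.re ^ 2 + z.im ^ 2 + δ ^ 4) h1 hne).const_mul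
    (1 / 2)
  refine h2.congr_fderiv ?_
  unfold r4K r4L
  rw [hn]
  ext w
  simp
  ring

private lemma r4K_norm_le {δ : ℝ} (hδ : 0 < δ) (z : ℂ) : ‖r4K δ z‖ ≤ (δ ^ 2)⁻¹ := by
  unfold r4K
  rw [norm_smul, norm_inv, Real.norm_of_nonneg (by positivity)]
  calc (‖z‖ ^ 2 + δ ^ 4)⁻¹ * ‖r4L z‖ ≤ (‖z‖ ^ 2 + δ ^ 4)⁻¹ * ‖z‖ :=
        mul_le_mul_of_nonneg_left (r4L_norm z) (by positivity)
    _ ≤ _ := by
      rw [inv_mul_eq_div, div_le_iff₀ (by positivity), inv_mul_eq_div, le_div_iff₀ (by positivity)]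
      nlinarith [sq_nonneg (‖z‖ - δ ^ 2), sq_nonneg ‖z‖, norm_nonneg z]

private lemma r4K_cont {δ : ℝ} (hδ : 0 < δ) : Continuous (r4K δ) := by
  unfold r4K
  have h1 : Continuous (fun z : ℂ => (‖z‖ ^ 2 + δ ^ 4)⁻¹) := by
    apply Continuous.inv₀ (by fun_prop)
    intro x; positivity
  exact h1.smul r4L_cont

private noncomputable def r4K0 (z : ℂ) : ℂ →L[ℝ] ℝ := (‖z‖ ^ 2)⁻¹ • r4L z

private lemma r4K0_meas : Measurable r4K0 := by
  unfold r4K0
  exact Measurable.smul ((measurable_norm.pow_const 2).inv) r4L_cont.measurable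

private lemma r4K_sub {δ : ℝ} (hδ : 0 < δ) (z : ℂ) : ‖r4K0 z - r4K δ z‖ ≤ δ * r4q z := by
  rcases eq_or_ne z 0 with rfl | hz
  · simp [r4K0, r4K, r4q, r4L]
  have hz' : 0 < ‖z‖ := norm_pos_iff.mpr hz
  unfold r4K0 r4K r4q
  have h0 : (‖z‖ ^ 2)⁻¹ • r4L z - (‖z‖ ^ 2 + δ ^ 4)⁻¹ • r4L z =
      ((‖z‖ ^ 2)⁻¹ - (‖z‖ ^ 2 + δ ^ 4)⁻¹) • r4L z := (sub_smul _ _ _).symm
  rw [h0, norm_smul]
  have h1 : (‖z‖ ^ 2)⁻¹ - (‖z‖ ^ 2 + δ ^ 4)⁻¹ = δ ^ 4 / (‖z‖ ^ 2 * (‖z‖ ^ 2 + δ ^ 4)) := by
    field_simp; ring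
  rw [h1, Real.norm_of_nonneg (by positivity)]
  calc δ ^ 4 / (‖z‖ ^ 2 * (‖z‖ ^ 2 + δ ^ 4)) * ‖r4L z‖
      ≤ δ ^ 4 / (‖z‖ ^ 2 * (‖z‖ ^ 2 + δ ^ 4)) * ‖z‖ :=
        mul_le_mul_of_nonneg_left (r4L_norm z) (by positivity)
    _ = δ ^ 4 / (‖z‖ * (‖z‖ ^ 2 + δ ^ 4)) := by field_simp
    _ ≤ _ := r4_ineq hz' hδ

private lemma r4K0_norm (z : ℂ) : ‖r4K0 z‖ ≤ r4q z + 1 := by
  rcases eq_or_ne z 0 with rfl | hz
  · simp [r4K0, r4q]
  have hz' : 0 < ‖z‖ := norm_pos_iff.mpr hz
  have h1 := r4K_sub one_pos z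
  have h2 := r4K_norm_le one_pos z
  have h3 : ‖r4K0 z‖ ≤ ‖r4K0 z - r4K 1 z‖ + ‖r4K 1 z‖ := by
    simpa using norm_add_le (r4K0 z - r4K 1 z) (r4K 1 z)
  simp only [one_mul, one_pow, inv_one] at h1 h2
  linarith

/-- a bounded measurable function of bounded support is integrable -/
private lemma r4_g_int {g : ℂ → ℝ} (hg : Measurable g) (M : ℝ) (hM : ∀ z, |g z| ≤ M)
    (r : ℝ) (h0 : ∀ z, r ≤ ‖z‖ → g z = 0) : Integrable g volume := by
  have h1 : g = (Metric.ball (0:ℂ) r).indicator g := by
    funext y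
    by_cases hy : y ∈ Metric.ball (0:ℂ) r
    · rw [Set.indicator_of_mem hy]
    · rw [Set.indicator_of_notMem hy]
      apply h0
      rw [Metric.mem_ball, dist_zero_right] at hy; exact not_lt.mp hy
  rw [h1, integrable_indicator_iff Metric.isOpen_ball.measurableSet]
  have : IntegrableOn (fun _ : ℂ => M) (Metric.ball (0:ℂ) r) volume :=
    integrableOn_const Metric.isBounded_ball.measure_lt_top.ne
  exact this.mono' hg.aestronglyMeasurable (Filter.Eventually.of_forall fun y => hM y)

private lemma r4_bdd_mul {g : ℂ → ℝ} (hgi : Integrable g volume) (r : ℝ)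
    (h0 : ∀ z, r ≤ ‖z‖ → g z = 0) {f : ℂ → ℝ} (hf : Continuous f) :
    Integrable (fun y => f y * g y) volume := by
  obtain ⟨C, hC⟩ := (isCompact_closedBall (0:ℂ) r).exists_bound_of_continuousOn hf.continuousOn
  refine (hgi.norm.const_mul C).mono' (hf.aestronglyMeasurable.mul hgi.aestronglyMeasurable) ?_
  refine Filter.Eventually.of_forall fun y => ?_
  rw [norm_mul]
  by_cases hy : r ≤ ‖y‖
  · rw [h0 y hy]; simp
  · refine mul_le_mul_of_nonneg_right (hC y ?_) (norm_nonneg _)
    rw [Metric.mem_closedBall, dist_zero_right]; exact (not_le.mp hy).le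

private lemma r4P_hasFDerivAt {g : ℂ → ℝ} (hgi : Integrable g volume) (r : ℝ)
    (h0 : ∀ z, r ≤ ‖z‖ → g z = 0) {δ : ℝ} (hδ : 0 < δ) (x : ℂ) :
    HasFDerivAt (fun x => ∫ y, r4N δ (x - y) * g y) (∫ y, g y • r4K δ (x - y)) x := by
  have hNc : Continuous (r4N δ) := by
    rw [continuous_iff_continuousAt]
    exact fun z => (r4N_hasFDerivAt hδ z).continuousAt
  refine hasFDerivAt_integral_of_dominated_of_fderiv_le (F := fun x y => r4N δ (x - y) * g y)
    (F' := fun x y => g y • r4K δ (x - y)) (bound := fun y => (δ ^ 2)⁻¹ * |g y|) Filter.univ_mem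
    ?_ ?_ ?_ ?_ ?_ ?_
  · exact Filter.Eventually.of_forall fun x =>
      (hNc.comp (continuous_const.sub continuous_id)).aestronglyMeasurable.mul
        hgi.aestronglyMeasurable
  · exact r4_bdd_mul hgi r h0 (hNc.comp (continuous_const.sub continuous_id))
  · exact hgi.aestronglyMeasurable.smul
      ((r4K_cont hδ).comp (continuous_const.sub continuous_id)).aestronglyMeasurable
  · refine Filter.Eventually.of_forall fun y x _ => ?_
    rw [norm_smul, mul_comm, Real.norm_eq_abs]
    exact mul_le_mul_of_nonneg_right (r4K_norm_le hδ _) (abs_nonneg _)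
  · exact hgi.abs.const_mul _
  · refine Filter.Eventually.of_forall fun y x _ => ?_
    have h1 : HasFDerivAt (fun x : ℂ => x - y) (ContinuousLinearMap.id ℝ ℂ) x :=
      (hasFDerivAt_id x).sub_const y
    have h2 := ((r4N_hasFDerivAt hδ (x - y)).comp x h1).mul_const (g y)
    exact h2

private lemma r4G_cont {g : ℂ → ℝ} (hgi : Integrable g volume) {δ : ℝ} (hδ : 0 < δ) :
    Continuous (fun x => ∫ y, g y • r4K δ (x - y)) := by
  refine continuous_of_dominated (bound := fun y => (δ ^ 2)⁻¹ * |g y|) ?_ ?_ ?_ ?_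
  · exact fun x => hgi.aestronglyMeasurable.smul
      ((r4K_cont hδ).comp (continuous_const.sub continuous_id)).aestronglyMeasurable
  · refine fun x => Filter.Eventually.of_forall fun y => ?_
    rw [norm_smul, mul_comm, Real.norm_eq_abs]
    exact mul_le_mul_of_nonneg_right (r4K_norm_le hδ _) (abs_nonneg _)
  · exact hgi.abs.const_mul _
  · refine Filter.Eventually.of_forall fun y => ?_
    have h1 : Continuous (fun x : ℂ => r4K δ (x - y)) :=
      (r4K_cont hδ).comp (continuous_id.sub continuous_const)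
    exact h1.const_smul (g y)

/-! ### R4 differentiability of logarithmic potentials -/
theorem log_pot_C1 {g : ℂ → ℝ} (hg : Measurable g) (M : ℝ) (hM : ∀ z, |g z| ≤ M)
    (r : ℝ) (h0 : ∀ z, r ≤ ‖z‖ → g z = 0) :
    ContDiff ℝ 1 (fun x => ∫ y, Real.log ‖x - y‖ * g y) := by
  obtain ⟨K, hK0, hK⟩ := r4_bound r
  have hgi := r4_g_int hg M hM r h0
  have hM0 : 0 ≤ M := (abs_nonneg _).trans (hM 0)
  set G : ℂ → (ℂ →L[ℝ] ℝ) := fun x => ∫ y, g y • r4K0 (x - y) with hG
  set δ : ℕ → ℝ := fun n => 1 / ((n:ℝ) + 1) with hδdef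
  have hδ : ∀ n, 0 < δ n := fun n => by rw [hδdef]; positivity
  have hδ0 : Tendsto δ atTop (𝓝 0) := tendsto_one_div_add_atTop_nhds_zero_nat
  have hI0 : ∀ x, Integrable (fun y => g y • r4K0 (x - y)) volume := by
    intro x
    refine Integrable.mono' ((hK g hg M hM h0 x).1.add hgi.abs) ?_ ?_
    · exact (hg.smul (r4K0_meas.comp (measurable_const.sub measurable_id))).aestronglyMeasurable
    · refine Filter.Eventually.of_forall fun y => ?_
      simp only [norm_smul, Real.norm_eq_abs, Pi.add_apply]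
      have := mul_le_mul_of_nonneg_left (r4K0_norm (x - y)) (abs_nonneg (g y))
      linarith
  have hIδ : ∀ n x, Integrable (fun y => g y • r4K (δ n) (x - y)) volume := by
    intro n x
    refine Integrable.mono' (hgi.abs.const_mul ((δ n) ^ 2)⁻¹) ?_ ?_
    · exact (hg.smul (((r4K_cont (hδ n)).measurable).comp
        (measurable_const.sub measurable_id))).aestronglyMeasurable
    · refine Filter.Eventually.of_forall fun y => ?_
      rw [norm_smul, mul_comm, Real.norm_eq_abs]
      exact mul_le_mul_of_nonneg_right (r4K_norm_le (hδ n) _) (abs_nonneg _)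
  have hdiff : ∀ n x, ‖G x - ∫ y, g y • r4K (δ n) (x - y)‖ ≤ δ n * (K * M) := by
    intro n x
    rw [hG]
    simp only
    rw [← integral_sub (hI0 x) (hIδ n x)]
    calc ‖∫ y, (g y • r4K0 (x - y) - g y • r4K (δ n) (x - y))‖
        ≤ ∫ y, δ n * (r4q (x - y) * |g y|) := by
          refine norm_integral_le_of_norm_le ((hK g hg M hM h0 x).1.const_mul _) ?_
          refine Filter.Eventually.of_forall fun y => ?_
          have h0 : g y • r4K0 (x - y) - g y • r4K (δ n) (x - y) =
              g y • (r4K0 (x - y) - r4K (δ n) (x - y)) := (smul_sub _ _ _).symm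
          rw [h0, norm_smul, Real.norm_eq_abs]
          have := mul_le_mul_of_nonneg_left (r4K_sub (hδ n) (x - y)) (abs_nonneg (g y))
          linarith
      _ = δ n * ∫ y, r4q (x - y) * |g y| := integral_const_mul _ _
      _ ≤ _ := mul_le_mul_of_nonneg_left (hK g hg M hM h0 x).2 (hδ n).le
  have hunif : TendstoUniformly (fun n x => ∫ y, g y • r4K (δ n) (x - y)) G atTop := by
    rw [Metric.tendstoUniformly_iff]
    intro ε hε
    have h1 : Tendsto (fun n => δ n * (K * M)) atTop (𝓝 0) := by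
      simpa using hδ0.mul_const (K * M)
    filter_upwards [h1.eventually (gt_mem_nhds hε)] with n hn x
    rw [dist_eq_norm]
    exact (hdiff n x).trans_lt hn
  have hGc : Continuous G :=
    hunif.continuous (Filter.Frequently.of_forall fun n => r4G_cont hgi (hδ n))
  have hae : ∀ x : ℂ, ∀ᵐ y ∂(volume : Measure ℂ), x - y ≠ 0 := by
    intro x
    have : ∀ᵐ y ∂(volume : Measure ℂ), y ≠ x := by
      simp [ae_iff]
    filter_upwards [this] with y hy
    exact fun h => hy (sub_eq_zero.mp h).symm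
  have hlogI : ∀ x, Integrable (fun y => Real.log ‖x - y‖ * g y) volume := by
    intro x
    refine Integrable.mono' ((hK g hg M hM h0 x).1.add (r4_bdd_mul hgi.abs r
      (fun z hz => by rw [h0 z hz, abs_zero]) (f := fun y => ‖x - y‖) (by fun_prop))) ?_ ?_
    · exact ((measurable_norm.comp (measurable_const.sub measurable_id)).log.mul
        hg).aestronglyMeasurable
    · refine Filter.Eventually.of_forall fun y => ?_
      rw [norm_mul, Real.norm_eq_abs, Real.norm_eq_abs]
      have := mul_le_mul_of_nonneg_right (r4_abs_log (norm_nonneg (x - y))) (abs_nonneg (g y))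
      simp only [Pi.add_apply]
      unfold r4q
      linarith
  have hNI : ∀ n x, Integrable (fun y => r4N (δ n) (x - y) * g y) volume := by
    intro n x
    have hNc : Continuous (r4N (δ n)) := by
      rw [continuous_iff_continuousAt]
      exact fun z => (r4N_hasFDerivAt (hδ n) z).continuousAt
    exact r4_bdd_mul hgi r h0 (hNc.comp (continuous_const.sub continuous_id))
  have hpt : ∀ x, Tendsto (fun n => ∫ y, r4N (δ n) (x - y) * g y) atTop
      (𝓝 (∫ y, Real.log ‖x - y‖ * g y)) := by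
    intro x
    rw [tendsto_iff_norm_sub_tendsto_zero]
    have h1 : Tendsto (fun n => δ n ^ 2 * (K * M + ∫ y, |g y|)) atTop (𝓝 0) := by
      simpa using (hδ0.pow 2).mul_const (K * M + ∫ y, |g y|)
    refine squeeze_zero (fun n => norm_nonneg _) (fun n => ?_) h1
    rw [← integral_sub (hNI n x) (hlogI x)]
    calc ‖∫ y, (r4N (δ n) (x - y) * g y - Real.log ‖x - y‖ * g y)‖
        ≤ ∫ y, δ n ^ 2 * (r4q (x - y) * |g y| + |g y|) := by
          refine norm_integral_le_of_norm_le
            (((hK g hg M hM h0 x).1.add hgi.abs).const_mul _) ?_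
          filter_upwards [hae x] with y hy
          rw [← sub_mul, norm_mul, Real.norm_eq_abs, Real.norm_eq_abs]
          have := mul_le_mul_of_nonneg_right
            (r4_log_ineq (norm_pos_iff.mpr hy) (hδ n)) (abs_nonneg (g y))
          unfold r4q r4N
          linarith
      _ = δ n ^ 2 * ((∫ y, r4q (x - y) * |g y|) + ∫ y, |g y|) := by
          rw [integral_const_mul, integral_add (hK g hg M hM h0 x).1 hgi.abs]
      _ ≤ _ := by
          have := (hK g hg M hM h0 x).2
          have h2 : 0 ≤ δ n ^ 2 := by positivity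
          nlinarith
  have hder : ∀ x, HasFDerivAt (fun x => ∫ y, Real.log ‖x - y‖ * g y) (G x) x := fun x =>
    hasFDerivAt_of_tendstoUniformly hunif
      (fun n x => r4P_hasFDerivAt hgi r h0 (hδ n) x) hpt x
  rw [contDiff_one_iff_fderiv]
  refine ⟨fun x => (hder x).differentiableAt, ?_⟩
  have : fderiv ℝ (fun x => ∫ y, Real.log ‖x - y‖ * g y) = G := by
    funext x; exact (hder x).fderiv
  rw [this]
  exact hGc

private lemma r4_log_locInt : LocallyIntegrable (fun z : ℂ => Real.log ‖z‖) volume := by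
  have h1 : LocallyIntegrable (fun z : ℂ => r4q z + ‖z‖) volume :=
    r4q_locInt.add continuous_norm.locallyIntegrable
  refine h1.mono ?_ ?_
  · exact (measurable_norm.log).aestronglyMeasurable
  · refine Filter.Eventually.of_forall fun z => ?_
    rw [Real.norm_eq_abs, Real.norm_of_nonneg (add_nonneg (r4q_nonneg z) (norm_nonneg z))]
    exact r4_abs_log (norm_nonneg z)

private lemma r4_conv (f g : ℂ → ℝ) (x : ℂ) :
    ∫ y, f (x - y) * g y = ∫ t, f t * g (x - t) := by
  rw [← integral_sub_left_eq_self (fun t => f t * g (x - t)) volume x]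
  simp

theorem log_pot_succ {g : ℂ → ℝ} (n : ℕ) (hg : ContDiff ℝ n g) (hc : HasCompactSupport g) :
    ContDiff ℝ (n + 1 : ℕ) (fun x => ∫ y, Real.log ‖x - y‖ * g y) := by
  induction n generalizing g with
  | zero =>
    obtain ⟨M, hM⟩ := hc.exists_bound_of_continuous hg.continuous
    obtain ⟨r, hr⟩ := hc.isCompact.isBounded.subset_ball (0:ℂ)
    have := log_pot_C1 hg.continuous.measurable M (fun z => hM z) r (fun z hz => by
      by_contra hne
      have h1 := hr (subset_tsupport g (Function.mem_support.mpr hne))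
      rw [Metric.mem_ball, dist_zero_right] at h1
      linarith)
    simpa using this
  | succ n ih =>
    have hg1 : ContDiff ℝ 1 g := hg.of_le (by exact_mod_cast Nat.succ_le_succ (Nat.zero_le n))
    have hcast : ((n + 1 + 1 : ℕ) : WithTop ℕ∞) = ((n + 1 : ℕ) : WithTop ℕ∞) + 1 := by
      push_cast; rfl
    have hder : ∀ x, HasFDerivAt (fun x => ∫ y, Real.log ‖x - y‖ * g y)
        ((MeasureTheory.convolution (fun z : ℂ => Real.log ‖z‖) (fderiv ℝ g)
          ((ContinuousLinearMap.mul ℝ ℝ).precompR ℂ) volume) x) x := by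
      intro x
      have h1 := hc.hasFDerivAt_convolution_right (ContinuousLinearMap.mul ℝ ℝ) r4_log_locInt hg1 x
      have h2 : (fun x => ∫ y, Real.log ‖x - y‖ * g y) =
          MeasureTheory.convolution (fun z : ℂ => Real.log ‖z‖) g
            (ContinuousLinearMap.mul ℝ ℝ) volume := by
        funext x
        rw [r4_conv (fun z => Real.log ‖z‖) g x]
        rfl
      rw [h2]
      exact h1
    rw [hcast, contDiff_succ_iff_fderiv_apply]
    refine ⟨fun x => (hder x).differentiableAt, fun h => ?_, fun v => ?_⟩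
    · exact absurd h (by simp)
    · have hgv : ContDiff ℝ n (fun z => fderiv ℝ g z v) := by
        have := (contDiff_succ_iff_fderiv_apply (n := (n : WithTop ℕ∞))).1
          (by simpa using hg)
        exact this.2.2 v
      have hcv : HasCompactSupport (fun z => fderiv ℝ g z v) := by
        have := hc.fderiv_apply (𝕜 := ℝ) v
        exact this
      have := ih hgv hcv
      convert this using 1
      funext x
      rw [(hder x).fderiv, MeasureTheory.convolution_precompR_apply (ContinuousLinearMap.mul ℝ ℝ)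
        r4_log_locInt (hc.fderiv ℝ) (hg1.continuous_fderiv one_ne_zero),
        r4_conv (fun z => Real.log ‖z‖) _ x]
      rfl

/-- square integrable densities give continuous potentials. -/
theorem log_pot_cont {g : ℂ → ℝ} (hg : AEStronglyMeasurable g volume)
    (hg2 : Integrable (fun z => g z ^ 2) volume) (r : ℝ) (h0 : ∀ z, r ≤ ‖z‖ → g z = 0) :
    Continuous (fun x => ∫ y, Real.log ‖x - y‖ * g y) := by
  -- a measurable representative
  set h : ℂ → ℝ := (Metric.ball (0:ℂ) r).indicator (hg.mk g) with hh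
  have hhm : Measurable h := hg.stronglyMeasurable_mk.measurable.indicator
    Metric.isOpen_ball.measurableSet
  have hh0 : ∀ z, r ≤ ‖z‖ → h z = 0 := by
    intro z hz
    apply Set.indicator_of_notMem
    rw [Metric.mem_ball, dist_zero_right]; exact not_lt.mpr hz
  have hgh : g =ᵐ[volume] h := by
    filter_upwards [hg.ae_eq_mk] with z hz
    by_cases hzr : z ∈ Metric.ball (0:ℂ) r
    · rw [hh, Set.indicator_of_mem hzr, hz]
    · rw [hh, Set.indicator_of_notMem hzr]
      apply h0
      rw [Metric.mem_ball, dist_zero_right] at hzr; exact not_lt.mp hzr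
  have hh2 : Integrable (fun z => h z ^ 2) volume := by
    refine hg2.congr ?_
    filter_upwards [hgh] with z hz
    rw [hz]
  have hPeq : (fun x => ∫ y, Real.log ‖x - y‖ * g y) = fun x => ∫ y, Real.log ‖x - y‖ * h y := by
    funext x
    apply integral_congr_ae
    filter_upwards [hgh] with y hy
    rw [hy]
  rw [hPeq]
  set hk : ℕ → ℂ → ℝ := fun k => {z | |h z| ≤ k}.indicator h with hhk
  have hkm : ∀ k, Measurable (hk k) := fun k =>
    hhm.indicator (measurableSet_le hhm.abs measurable_const)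
  have hkb : ∀ k z, |hk k z| ≤ k := by
    intro k z
    by_cases hz : z ∈ {z | |h z| ≤ (k:ℝ)}
    · simp only [hhk]; rw [Set.indicator_of_mem hz]; exact hz
    · simp only [hhk]; rw [Set.indicator_of_notMem hz]; simp
  have hkle : ∀ k z, |hk k z| ≤ |h z| := by
    intro k z
    by_cases hz : z ∈ {z | |h z| ≤ (k:ℝ)}
    · simp only [hhk]; rw [Set.indicator_of_mem hz]
    · simp only [hhk]; rw [Set.indicator_of_notMem hz]; simp
  have hkd : ∀ k z, |h z - hk k z| ≤ |h z| := by
    intro k z
    by_cases hz : z ∈ {z | |h z| ≤ (k:ℝ)}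
    · simp only [hhk]; rw [Set.indicator_of_mem hz]; simp
    · simp only [hhk]; rw [Set.indicator_of_notMem hz]; simp
  have hk0 : ∀ k z, r ≤ ‖z‖ → hk k z = 0 := by
    intro k z hz
    have := hkle k z
    rw [hh0 z hz, abs_zero] at this
    exact abs_eq_zero.mp (le_antisymm this (abs_nonneg _))
  have hkcont : ∀ k, Continuous (fun x => ∫ y, Real.log ‖x - y‖ * hk k y) := fun k =>
    (log_pot_C1 (hkm k) k (hkb k) r (hk0 k)).continuous
  set e : ℕ → ℝ := fun k => ∫ z, (h z - hk k z) ^ 2 with he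
  have he0 : Tendsto e atTop (𝓝 0) := by
    have : (0:ℝ) = ∫ z : ℂ, (0:ℝ) := by simp
    rw [this]
    refine tendsto_integral_of_dominated_convergence (fun z => h z ^ 2) ?_ hh2 ?_ ?_
    · exact fun k => ((hhm.sub (hkm k)).pow_const 2).aestronglyMeasurable
    · refine fun k => Filter.Eventually.of_forall fun z => ?_
      rw [Real.norm_of_nonneg (sq_nonneg _)]
      exact sq_le_sq.mpr (hkd k z)
    · refine Filter.Eventually.of_forall fun z => ?_
      obtain ⟨K, hK⟩ := exists_nat_ge |h z|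
      refine tendsto_const_nhds.congr' ?_
      filter_upwards [eventually_ge_atTop K] with k hk'
      have hz : z ∈ {z | |h z| ≤ (k:ℝ)} := hK.trans (by exact_mod_cast hk')
      simp only [hhk]; rw [Set.indicator_of_mem hz]; simp
  -- the pointwise bound
  have main : ∀ (u : ℂ → ℝ) (_ : Measurable u) (_ : Integrable (fun z => u z ^ 2) volume)
      (_ : ∀ z, r ≤ ‖z‖ → u z = 0) (ρ : ℝ) (x : ℂ) (_ : ‖x‖ + r ≤ ρ) (l : ℝ) (_ : 0 < l),
      Integrable (fun y => Real.log ‖x - y‖ * u y) volume ∧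
      ‖∫ y, Real.log ‖x - y‖ * u y‖ ≤
        l * (∫ z in Metric.ball (0:ℂ) ρ, Real.log (‖0 - z‖ / 1) ^ 2) + l⁻¹ * ∫ z, u z ^ 2 := by
    intro u hu hu2 hu0 ρ x hx l hl
    set F : ℂ → ℝ := (Metric.ball (0:ℂ) ρ).indicator (fun z => Real.log (‖0 - z‖ / 1) ^ 2) with hF
    have hFi : Integrable F volume := (integrable_indicator_iff Metric.isOpen_ball.measurableSet).2
      (log_sq_integrable 1 one_pos 0 ρ)
    have hFx : Integrable (fun y => F (x - y)) volume := hFi.comp_sub_left x
    have hle : ∀ y, ‖Real.log ‖x - y‖ * u y‖ ≤ l * F (x - y) + l⁻¹ * u y ^ 2 := by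
      intro y
      by_cases hy : r ≤ ‖y‖
      · rw [hu0 y hy]
        have : 0 ≤ F (x - y) := Set.indicator_nonneg (fun z _ => sq_nonneg _) _
        simp only [mul_zero, norm_zero]
        positivity
      · have hmem : x - y ∈ Metric.ball (0:ℂ) ρ := by
          rw [Metric.mem_ball, dist_zero_right]
          have := norm_sub_le x y
          have := not_le.mp hy
          linarith
        rw [hF, Set.indicator_of_mem hmem, norm_mul, Real.norm_eq_abs, Real.norm_eq_abs]
        have h1 : ‖(0:ℂ) - (x - y)‖ / 1 = ‖x - y‖ := by rw [zero_sub, norm_neg, div_one]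
        rw [h1]
        set a := Real.log ‖x - y‖
        set b := u y
        have h2 : 0 ≤ (Real.sqrt l * |a| - (Real.sqrt l)⁻¹ * |b|) ^ 2 := sq_nonneg _
        have h3 : Real.sqrt l ^ 2 = l := Real.sq_sqrt hl.le
        have h4 : (Real.sqrt l)⁻¹ ^ 2 = l⁻¹ := by rw [inv_pow, h3]
        have h5 : Real.sqrt l * (Real.sqrt l)⁻¹ = 1 :=
          mul_inv_cancel₀ (Real.sqrt_pos.mpr hl).ne'
        have h6 : (Real.sqrt l * |a| - (Real.sqrt l)⁻¹ * |b|) ^ 2 =
            l * a ^ 2 + l⁻¹ * b ^ 2 - 2 * (|a| * |b|) := by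
          rw [sub_sq, mul_pow, mul_pow, h3, h4, sq_abs, sq_abs]
          have : 2 * (√l * |a|) * ((√l)⁻¹ * |b|) = 2 * (|a| * |b|) * (√l * (√l)⁻¹) := by ring
          rw [this, h5]; ring
        have h7 : 0 ≤ |a| * |b| := by positivity
        linarith
    have hdom : Integrable (fun y => l * F (x - y) + l⁻¹ * u y ^ 2) volume :=
      (hFx.const_mul l).add (hu2.const_mul l⁻¹)
    refine ⟨?_, ?_⟩
    · refine hdom.mono' ?_ (Filter.Eventually.of_forall hle)
      exact ((measurable_norm.comp (measurable_const.sub measurable_id)).log.mul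
        hu).aestronglyMeasurable
    · refine (norm_integral_le_of_norm_le hdom (Filter.Eventually.of_forall hle)).trans ?_
      rw [integral_add (hFx.const_mul l) (hu2.const_mul l⁻¹), integral_const_mul,
        integral_const_mul, integral_sub_left_eq_self F volume x, hF,
        integral_indicator Metric.isOpen_ball.measurableSet]
  rw [continuous_iff_continuousAt]
  intro x₀
  set ρ := ‖x₀‖ + 1 + |r| with hρ
  set C := ∫ z in Metric.ball (0:ℂ) ρ, Real.log (‖0 - z‖ / 1) ^ 2 with hC
  have hC0 : 0 ≤ C := integral_nonneg fun z => sq_nonneg _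
  have hk2 : ∀ k, Integrable (fun z => hk k z ^ 2) volume := fun k =>
    hh2.mono' ((hkm k).pow_const 2).aestronglyMeasurable (Filter.Eventually.of_forall fun z => by
      rw [Real.norm_of_nonneg (sq_nonneg _)]; exact sq_le_sq.mpr (hkle k z))
  have hd2 : ∀ k, Integrable (fun z => (h z - hk k z) ^ 2) volume := fun k =>
    hh2.mono' ((hhm.sub (hkm k)).pow_const 2).aestronglyMeasurable
      (Filter.Eventually.of_forall fun z => by
        rw [Real.norm_of_nonneg (sq_nonneg _)]; exact sq_le_sq.mpr (hkd k z))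
  have hunif : TendstoUniformlyOn (fun k x => ∫ y, Real.log ‖x - y‖ * hk k y)
      (fun x => ∫ y, Real.log ‖x - y‖ * h y) atTop (Metric.ball x₀ 1) := by
    rw [Metric.tendstoUniformlyOn_iff]
    intro ε hε
    set l := ε / (2 * (C + 1)) with hl
    have hl0 : 0 < l := by positivity
    have hlC : l * C < ε / 2 := by
      rw [hl, div_mul_eq_mul_div, div_lt_iff₀ (by positivity)]
      nlinarith
    have h1 : Tendsto (fun k => l⁻¹ * e k) atTop (𝓝 0) := by
      simpa using he0.const_mul l⁻¹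
    filter_upwards [h1.eventually (gt_mem_nhds (half_pos hε))] with k hk' x hx
    have hxρ : ‖x‖ + r ≤ ρ := by
      have h2 : ‖x - x₀‖ < 1 := by rwa [Metric.mem_ball, dist_eq_norm] at hx
      have h3 : ‖x‖ ≤ ‖x₀‖ + ‖x - x₀‖ := by
        have := norm_add_le x₀ (x - x₀)
        simpa using this
      have := le_abs_self r
      rw [hρ]; linarith
    have i1 := (main h hhm hh2 hh0 ρ x hxρ 1 one_pos).1
    have i2 := (main (hk k) (hkm k) (hk2 k) (hk0 k) ρ x hxρ 1 one_pos).1
    have i3 := (main (fun z => h z - hk k z) (hhm.sub (hkm k)) (hd2 k)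
      (fun z hz => by rw [hh0 z hz, hk0 k z hz, sub_zero]) ρ x hxρ l hl0).2
    rw [dist_eq_norm, ← integral_sub i1 i2]
    have h4 : ∀ y, Real.log ‖x - y‖ * h y - Real.log ‖x - y‖ * hk k y =
        Real.log ‖x - y‖ * (h y - hk k y) := fun y => by ring
    simp only [h4]
    refine i3.trans_lt ?_
    have : l⁻¹ * e k < ε / 2 := hk'
    simp only [he] at this
    linarith
  have hcon : ContinuousOn (fun x => ∫ y, Real.log ‖x - y‖ * h y) (Metric.ball x₀ 1) :=
    hunif.continuousOn (Filter.Frequently.of_forall fun k => (hkcont k).continuousOn)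
  exact hcon.continuousAt (Metric.ball_mem_nhds x₀ one_pos)

/-- potentials are smooth off the support of the density. -/
theorem log_pot_smooth_off {g : ℂ → ℝ} (hg : Integrable g volume) (x₀ : ℂ) (d r : ℝ) (hd : 0 < d)
    (h0 : ∀ z, r ≤ ‖z‖ → g z = 0) (h1 : ∀ z ∈ Metric.ball x₀ d, g z = 0) :
    ContDiffOn ℝ ∞ (fun x => ∫ y, Real.log ‖x - y‖ * g y) (Metric.ball x₀ (d / 2)) := by
  set ρ := ‖x₀‖ + d / 2 + |r| with hρ
  have hρ0 : 0 < ρ := by positivity
  let b₁ : ContDiffBump (0:ℂ) := ⟨d / 4, d / 2, by positivity, by linarith⟩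
  let b₂ : ContDiffBump (0:ℂ) := ⟨ρ, ρ + 1, hρ0, by linarith⟩
  set ψ : ℂ → ℝ := fun z => b₂ z * ((1 - b₁ z) * Real.log ‖z‖) with hψ
  have hψs : ContDiff ℝ ∞ ψ := by
    rw [contDiff_iff_contDiffAt]
    intro z
    rcases eq_or_ne z 0 with rfl | hz
    · have : ψ =ᶠ[𝓝 0] fun _ => 0 := by
        filter_upwards [Metric.closedBall_mem_nhds (0:ℂ) (show 0 < d / 4 by positivity)] with z hz
        have : b₁ z = 1 := b₁.one_of_mem_closedBall hz
        simp only [hψ]; rw [this]; ring
      exact contDiffAt_const.congr_of_eventuallyEq this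
    · have hl : ContDiffAt ℝ ∞ (fun z : ℂ => Real.log ‖z‖) z :=
        (contDiffAt_norm ℝ hz).log (norm_ne_zero_iff.mpr hz)
      exact b₂.contDiff.contDiffAt.mul ((contDiffAt_const.sub b₁.contDiff.contDiffAt).mul hl)
  have hψc : HasCompactSupport ψ := b₂.hasCompactSupport.mul_right
  have hsm : ContDiff ℝ ∞ (MeasureTheory.convolution g ψ (ContinuousLinearMap.mul ℝ ℝ) volume) :=
    hψc.contDiff_convolution_right (ContinuousLinearMap.mul ℝ ℝ) hg.locallyIntegrable hψs
  refine hsm.contDiffOn.congr fun x hx => ?_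
  change _ = ∫ t, g t * ψ (x - t)
  apply integral_congr_ae
  refine Filter.Eventually.of_forall fun y => ?_
  simp only
  by_cases hy : g y = 0
  · rw [hy]; ring
  · have hy1 : ‖y‖ < r := by
      by_contra hc; exact hy (h0 y (not_lt.mp hc))
    have hy2 : d ≤ ‖y - x₀‖ := by
      by_contra hc
      exact hy (h1 y (by rw [Metric.mem_ball, dist_eq_norm]; exact not_le.mp hc))
    have hx' : ‖x - x₀‖ < d / 2 := by rwa [Metric.mem_ball, dist_eq_norm] at hx
    have h3 : d / 2 < ‖x - y‖ := by
      have : ‖y - x₀‖ ≤ ‖x - x₀‖ + ‖x - y‖ := by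
        have h4 : y - x₀ = (x - x₀) - (x - y) := by ring
        rw [h4]; exact norm_sub_le _ _
      linarith
    have h4 : ‖x - y‖ < ρ := by
      have h5 : ‖x‖ ≤ ‖x₀‖ + ‖x - x₀‖ := by
        have := norm_add_le x₀ (x - x₀)
        simpa using this
      have h6 := norm_sub_le x y
      have h7 := le_abs_self r
      rw [hρ]; linarith
    have hb1 : b₁ (x - y) = 0 := by
      apply b₁.zero_of_le_dist
      rw [dist_zero_right]
      exact h3.le
    have hb2 : b₂ (x - y) = 1 := by
      apply b₂.one_of_mem_closedBall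
      rw [Metric.mem_closedBall, dist_zero_right]
      exact h4.le
    simp only [hψ]
    rw [hb1, hb2]; ring

end Pool.MP_ad5d82_an.Wl
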