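import Pool.Agent.Lib.MP_ad5d82_an.h24.HDefs
import Pool.Agent.Lib.MP_ad5d82_an.h24.H.H1
import Pool.Agent.Lib.MP_ad5d82_an.h24.H.H9
import Pool.Agent.Lib.MP_ad5d82_an.h24.R.R1
import Pool.Agent.Lib.MP_ad5d82_an.h24.R.R2
import Pool.Agent.Lib.MP_ad5d82_an.h24.R.R4

set_option autoImplicit false

namespace Pool.MP_ad5d82_an.Wl

open Real Set MeasureTheory Filter Topology
open scoped ContDiff

variable {ι : Type} [Fintype ι] [DecidableEq ι]

/-! ### R5 local regularity -/

/-- locally square integrable. -/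
def R5Loc (g : ℂ → ℝ) : Prop :=
  AEStronglyMeasurable g volume ∧
    ∀ R : ℝ, IntegrableOn (fun z => g z ^ 2) (Metric.ball 0 R) volume

theorem R5Loc.mul_sq {g a : ℂ → ℝ} (hg : R5Loc g) (ha : Continuous a) (sa : HasCompactSupport a) :
    Integrable (fun z => (g z * a z) ^ 2) volume := by
  obtain ⟨hm, hi⟩ := hg
  obtain ⟨M, hM⟩ := sa.exists_bound_of_continuous ha
  obtain ⟨R, hR⟩ := sa.isCompact.isBounded.subset_ball 0
  have h1 : Integrable ((Metric.ball (0 : ℂ) R).indicator fun z => M ^ 2 * g z ^ 2) volume :=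
    (integrable_indicator_iff Metric.isOpen_ball.measurableSet).2 ((hi R).const_mul (M ^ 2))
  refine Integrable.mono' h1 ((hm.mul ha.aestronglyMeasurable).pow 2)
    (Eventually.of_forall fun z => ?_)
  rw [Real.norm_eq_abs, abs_of_nonneg (by positivity)]
  by_cases hz : z ∈ Metric.ball (0 : ℂ) R
  · rw [indicator_of_mem hz, mul_pow, mul_comm]
    have h2 : a z ^ 2 ≤ M ^ 2 := by
      rw [← sq_abs (a z)]
      exact pow_le_pow_left₀ (abs_nonneg _) (hM z) 2
    exact mul_le_mul_of_nonneg_right h2 (by positivity)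
  · rw [indicator_of_notMem hz]
    have h3 : a z = 0 := by
      by_contra hne
      exact hz (hR (subset_tsupport a hne))
    rw [h3, mul_zero]
    simp

theorem R5Loc.mul_int {g a : ℂ → ℝ} (hg : R5Loc g) (ha : Continuous a) (sa : HasCompactSupport a) :
    Integrable (fun z => g z * a z) volume := by
  obtain ⟨R, hR⟩ := sa.isCompact.isBounded.subset_ball 0
  have h1 : Integrable ((Metric.ball (0 : ℂ) R).indicator fun _ => (1 : ℝ)) volume :=
    (integrable_indicator_iff Metric.isOpen_ball.measurableSet).2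
      (integrableOn_const (measure_ball_lt_top).ne)
  refine Integrable.mono' (h1.add (hg.mul_sq ha sa)) (hg.1.mul ha.aestronglyMeasurable)
    (Eventually.of_forall fun z => ?_)
  rw [Real.norm_eq_abs]
  simp only [Pi.add_apply]
  by_cases hz : z ∈ Metric.ball (0 : ℂ) R
  · rw [indicator_of_mem hz]
    have := sq_nonneg (|g z * a z| - 1)
    have h2 := sq_abs (g z * a z)
    nlinarith [abs_nonneg (g z * a z)]
  · rw [indicator_of_notMem hz]
    have h3 : a z = 0 := by
      by_contra hne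
      exact hz (hR (subset_tsupport a hne))
    rw [h3, mul_zero]
    simp

omit [DecidableEq ι] in
theorem r5_coord (x : Ev ι) (j : ι) : (x j) ^ 2 ≤ ‖x‖ ^ 2 := by
  rw [EuclideanSpace.norm_sq_eq]
  have := Finset.single_le_sum (f := fun i => ‖x i‖ ^ 2) (fun i _ => by positivity)
    (Finset.mem_univ j)
  simpa [Real.norm_eq_abs, sq_abs] using this

theorem r5_loc {U : Fld ι} (hU : IsSob U) (j : ι) :
    R5Loc (fun z => (U z).1 j) ∧ R5Loc (fun z => (U z).2.1 j) ∧ R5Loc (fun z => (U z).2.2 j) := by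
  have h := hU.1
  have m1 : AEStronglyMeasurable (fun z => (U z).1 j) volume :=
    (by fun_prop : Continuous fun p : Ev ι × Ev ι × Ev ι => p.1 j).comp_aestronglyMeasurable h
  have m2 : AEStronglyMeasurable (fun z => (U z).2.1 j) volume :=
    (by fun_prop : Continuous fun p : Ev ι × Ev ι × Ev ι => p.2.1 j).comp_aestronglyMeasurable h
  have m3 : AEStronglyMeasurable (fun z => (U z).2.2 j) volume :=
    (by fun_prop : Continuous fun p : Ev ι × Ev ι × Ev ι => p.2.2 j).comp_aestronglyMeasurable h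
  refine ⟨⟨m1, fun R => ?_⟩, ⟨m2, fun R => ?_⟩, ⟨m3, fun R => ?_⟩⟩
  · refine Integrable.mono' (hU.integrableOn_sq R) (m1.pow 2).restrict
      (Eventually.of_forall fun z => ?_)
    rw [Real.norm_eq_abs, abs_of_nonneg (by positivity)]
    exact r5_coord _ j
  · refine Integrable.mono' hU.integrable_gsq.integrableOn (m2.pow 2).restrict
      (Eventually.of_forall fun z => ?_)
    rw [Real.norm_eq_abs, abs_of_nonneg (by positivity)]
    unfold gsq
    have := r5_coord (U z).2.1 j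
    nlinarith [sq_nonneg ‖(U z).2.2‖]
  · refine Integrable.mono' hU.integrable_gsq.integrableOn (m3.pow 2).restrict
      (Eventually.of_forall fun z => ?_)
    rw [Real.norm_eq_abs, abs_of_nonneg (by positivity)]
    unfold gsq
    have := r5_coord (U z).2.2 j
    nlinarith [sq_nonneg ‖(U z).2.1‖]

theorem r5_test_mul {φ χ : ℂ → ℝ} (hφ : IsTestR φ) (hχ : IsTestR χ) :
    IsTestR (fun z => χ z * φ z) :=
  ⟨hχ.1.mul hφ.1, hφ.2.mul_left⟩

theorem r5_test_d {φ : ℂ → ℝ} (hφ : IsTestR φ) (v : ℂ) : IsTestR (fun z => fderiv ℝ φ z v) :=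
  ⟨(hφ.1.fderiv_right (m := ∞) (by simp)).clm_apply contDiff_const, hφ.2.fderiv_apply ℝ v⟩

theorem r5_fderiv_mul {φ χ : ℂ → ℝ} (hφ : IsTestR φ) (hχ : IsTestR χ) (z v : ℂ) :
    fderiv ℝ (fun z => χ z * φ z) z v = χ z * fderiv ℝ φ z v + φ z * fderiv ℝ χ z v := by
  have h1 : DifferentiableAt ℝ χ z := hχ.1.differentiable (by simp) z
  have h2 : DifferentiableAt ℝ φ z := hφ.1.differentiable (by simp) z
  have h3 : fderiv ℝ (fun z => χ z * φ z) z = χ z • fderiv ℝ φ z + φ z • fderiv ℝ χ z :=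
    fderiv_fun_mul h1 h2
  rw [h3]
  simp

theorem IsTestR.r5c {φ : ℂ → ℝ} (hφ : IsTestR φ) : Continuous φ := hφ.1.continuous

theorem r5_test_lap {φ : ℂ → ℝ} (hφ : IsTestR φ) : IsTestR (lapC φ) :=
  ⟨(r5_test_d (r5_test_d hφ 1) 1).1.add (r5_test_d (r5_test_d hφ Complex.I) Complex.I).1,
    (r5_test_d (r5_test_d hφ 1) 1).2.add (r5_test_d (r5_test_d hφ Complex.I) Complex.I).2⟩

/-- the localized right-hand side. -/
noncomputable def r5F (U : Fld ι) (j : ι) (f χ : ℂ → ℝ) (z : ℂ) : ℝ :=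
  f z * χ z + (U z).2.1 j * (2 * fderiv ℝ χ z 1) + (U z).2.2 j * (2 * fderiv ℝ χ z Complex.I)
    + (U z).1 j * lapC χ z

theorem r5_weak (U : Fld ι) (hU : IsSob U) (j : ι) (f : ℂ → ℝ) (hf : R5Loc f)
    (h : ∀ φ : ℂ → ℝ, IsTestR φ →
      ∫ z, ((U z).2.1 j * fderiv ℝ φ z 1 + (U z).2.2 j * fderiv ℝ φ z Complex.I)
        = -∫ z, f z * φ z) {χ φ : ℂ → ℝ} (hχ : IsTestR χ) (hφ : IsTestR φ) :
    ∫ z, ((U z).1 j * χ z) * lapC φ z = ∫ z, r5F U j f χ z * φ z := by
  obtain ⟨l0, l1, l2⟩ := r5_loc hU j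
  -- the two kinds of null integrals
  have nu1 : ∀ ψ : ℂ → ℝ, IsTestR ψ →
      Integrable (fun z => (U z).1 j * fderiv ℝ ψ z 1 + (U z).2.1 j * ψ z) volume ∧
      ∫ z, ((U z).1 j * fderiv ℝ ψ z 1 + (U z).2.1 j * ψ z) = 0 := by
    intro ψ hψ
    have i1 := l0.mul_int (r5_test_d hψ 1).r5c (r5_test_d hψ 1).2
    have i2 := l1.mul_int hψ.r5c hψ.2
    refine ⟨i1.add i2, ?_⟩
    rw [integral_add i1 i2, (hU.weak_deriv j hψ).1]
    ring
  have nu2 : ∀ ψ : ℂ → ℝ, IsTestR ψ →
      Integrable (fun z => (U z).1 j * fderiv ℝ ψ z Complex.I + (U z).2.2 j * ψ z) volume ∧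
      ∫ z, ((U z).1 j * fderiv ℝ ψ z Complex.I + (U z).2.2 j * ψ z) = 0 := by
    intro ψ hψ
    have i1 := l0.mul_int (r5_test_d hψ Complex.I).r5c (r5_test_d hψ Complex.I).2
    have i2 := l2.mul_int hψ.r5c hψ.2
    refine ⟨i1.add i2, ?_⟩
    rw [integral_add i1 i2, (hU.weak_deriv j hψ).2]
    ring
  have nu3 : ∀ ψ : ℂ → ℝ, IsTestR ψ →
      Integrable (fun z => ((U z).2.1 j * fderiv ℝ ψ z 1 + (U z).2.2 j * fderiv ℝ ψ z Complex.I)
        + f z * ψ z) volume ∧
      ∫ z, (((U z).2.1 j * fderiv ℝ ψ z 1 + (U z).2.2 j * fderiv ℝ ψ z Complex.I)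
        + f z * ψ z) = 0 := by
    intro ψ hψ
    have i1 := l1.mul_int (r5_test_d hψ 1).r5c (r5_test_d hψ 1).2
    have i2 := l2.mul_int (r5_test_d hψ Complex.I).r5c (r5_test_d hψ Complex.I).2
    have i3 := hf.mul_int hψ.r5c hψ.2
    have i12 : Integrable (fun z => (U z).2.1 j * fderiv ℝ ψ z 1
      + (U z).2.2 j * fderiv ℝ ψ z Complex.I) volume := i1.add i2
    refine ⟨i12.add i3, ?_⟩
    rw [integral_add i12 i3, h ψ hψ]
    ring
  obtain ⟨a1, b1⟩ := nu1 _ (r5_test_mul (r5_test_d hφ 1) hχ)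
  obtain ⟨a2, b2⟩ := nu2 _ (r5_test_mul (r5_test_d hφ Complex.I) hχ)
  obtain ⟨a3, b3⟩ := nu1 _ (r5_test_mul hφ (r5_test_d hχ 1))
  obtain ⟨a4, b4⟩ := nu2 _ (r5_test_mul hφ (r5_test_d hχ Complex.I))
  obtain ⟨a5, b5⟩ := nu3 _ (r5_test_mul hφ hχ)
  have hsum := integral_sub (((a1.add a2).sub a3).sub a4) a5
  have hsum2 := integral_sub ((a1.add a2).sub a3) a4
  have hsum3 := integral_sub (a1.add a2) a3
  have hsum4 := integral_add a1 a2
  simp only [Pi.add_apply, Pi.sub_apply] at hsum hsum2 hsum3 hsum4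
  rw [b1, b2] at hsum4
  rw [hsum4, b3] at hsum3
  rw [hsum3, b4] at hsum2
  rw [hsum2, b5] at hsum
  -- integrability of the two sides
  have j1 : Integrable (fun z => ((U z).1 j * χ z) * lapC φ z) volume := by
    have := l0.mul_int (hχ.r5c.mul (r5_test_lap hφ).r5c) hχ.2.mul_right
    refine this.congr (Eventually.of_forall fun z => ?_)
    simp only [Pi.mul_apply]
    ring
  have j2 : Integrable (fun z => r5F U j f χ z * φ z) volume := by
    have q1 := hf.mul_int (hχ.r5c.mul hφ.r5c) hχ.2.mul_right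
    have q2 := l1.mul_int ((r5_test_d hχ 1).r5c.mul hφ.r5c)
      (r5_test_d hχ 1).2.mul_right
    have q3 := l2.mul_int ((r5_test_d hχ Complex.I).r5c.mul hφ.r5c)
      (r5_test_d hχ Complex.I).2.mul_right
    have q4 := l0.mul_int ((r5_test_lap hχ).r5c.mul hφ.r5c)
      (r5_test_lap hχ).2.mul_right
    refine (((q1.add (q2.const_mul 2)).add (q3.const_mul 2)).add q4).congr
      (Eventually.of_forall fun z => ?_)
    simp only [Pi.mul_apply, Pi.add_apply, r5F]
    ring
  have hd : ∫ z, (((U z).1 j * χ z) * lapC φ z - r5F U j f χ z * φ z) = 0 := by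
    refine Eq.trans (integral_congr_ae (Eventually.of_forall fun z => ?_)) (hsum.trans (by ring))
    have e1 := r5_fderiv_mul (r5_test_d hφ 1) hχ z 1
    have e2 := r5_fderiv_mul (r5_test_d hφ Complex.I) hχ z Complex.I
    have e3 := r5_fderiv_mul hφ (r5_test_d hχ 1) z 1
    have e4 := r5_fderiv_mul hφ (r5_test_d hχ Complex.I) z Complex.I
    have e5 := r5_fderiv_mul hφ hχ z 1
    have e6 := r5_fderiv_mul hφ hχ z Complex.I
    simp only [] at e1 e2 e3 e4 e5 e6 ⊢
    rw [e1, e2, e3, e4, e5, e6]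
    simp only [r5F, lapC]
    ring
  rw [integral_sub j1 j2] at hd
  linarith

/-- integrability of the kernel against a square integrable, compactly supported density. -/
theorem r5_log_int {F : ℂ → ℝ} (hm : AEStronglyMeasurable F volume)
    (h2 : Integrable (fun z => F z ^ 2) volume) (c : ℂ) (r : ℝ)
    (h0 : ∀ z, z ∉ Metric.ball c r → F z = 0) (x : ℂ) :
    Integrable (fun y => Real.log ‖x - y‖ * F y) volume := by
  have hlog := log_sq_integrable 1 one_pos x (r + dist c x)
  have hsub : Metric.ball c r ⊆ Metric.ball x (r + dist c x) := by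
    intro y hy
    rw [Metric.mem_ball] at hy ⊢
    have := dist_triangle y c x
    linarith
  have hI : Integrable ((Metric.ball x (r + dist c x)).indicator
      (fun y : ℂ => Real.log (‖x - y‖ / 1) ^ 2)) volume :=
    (integrable_indicator_iff Metric.isOpen_ball.measurableSet).2 hlog
  have hml : Measurable fun y : ℂ => Real.log ‖x - y‖ := by fun_prop
  refine Integrable.mono' (hI.add h2) (hml.aestronglyMeasurable.mul hm)
    (Eventually.of_forall fun y => ?_)
  rw [Real.norm_eq_abs, abs_mul]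
  simp only [Pi.add_apply]
  by_cases hy : y ∈ Metric.ball c r
  · rw [indicator_of_mem (hsub hy), div_one]
    have e1 := sq_nonneg (|Real.log ‖x - y‖| - |F y|)
    have e2 := sq_abs (Real.log ‖x - y‖)
    have e3 := sq_abs (F y)
    have e4 : 0 ≤ |Real.log ‖x - y‖| * |F y| := by positivity
    nlinarith
  · rw [h0 y hy, abs_zero, mul_zero]
    have : 0 ≤ (Metric.ball x (r + dist c x)).indicator
        (fun y : ℂ => Real.log (‖x - y‖ / 1) ^ 2) y := indicator_nonneg (fun _ _ => by positivity) _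
    positivity

/-- a square integrable density supported in a ball is integrable. -/
theorem r5_int_of_sq {F : ℂ → ℝ} (hm : AEStronglyMeasurable F volume)
    (h2 : Integrable (fun z => F z ^ 2) volume) (c : ℂ) (r : ℝ)
    (h0 : ∀ z, z ∉ Metric.ball c r → F z = 0) : Integrable F volume := by
  have h1 : Integrable ((Metric.ball c r).indicator fun _ => (1 : ℝ)) volume :=
    (integrable_indicator_iff Metric.isOpen_ball.measurableSet).2
      (integrableOn_const (measure_ball_lt_top).ne)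
  refine Integrable.mono' (h1.add h2) hm (Eventually.of_forall fun z => ?_)
  rw [Real.norm_eq_abs]
  simp only [Pi.add_apply]
  by_cases hz : z ∈ Metric.ball c r
  · rw [indicator_of_mem hz]
    have := sq_nonneg (|F z| - 1)
    have h2 := sq_abs (F z)
    nlinarith [abs_nonneg (F z)]
  · rw [indicator_of_notMem hz, h0 z hz]
    simp

/-- local representation: near `x₀` a weak solution of `Δ g = f` is a potential plus a smooth function. -/
theorem local_repr (U : Fld ι) (hU : IsSob U) (j : ι) (f : ℂ → ℝ) (hf : AEStronglyMeasurable f volume)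
    (hf2 : ∀ R : ℝ, IntegrableOn (fun z => f z ^ 2) (Metric.ball 0 R) volume)
    (h : ∀ φ : ℂ → ℝ, IsTestR φ →
      ∫ z, ((U z).2.1 j * fderiv ℝ φ z 1 + (U z).2.2 j * fderiv ℝ φ z Complex.I)
        = -∫ z, f z * φ z) (x₀ : ℂ) :
    ∃ w : ℂ → ℝ, ContDiffOn ℝ ∞ w (Metric.ball x₀ 1) ∧
      ∀ᵐ x : ℂ, x ∈ Metric.ball x₀ 1 →
        2 * π * (U x).1 j = (∫ y in Metric.ball x₀ 2, Real.log ‖x - y‖ * f y) + w x := by
  obtain ⟨l0, l1, l2⟩ := r5_loc hU j
  have lf : R5Loc f := ⟨hf, hf2⟩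
  obtain ⟨χ, hχ, χ1, χs⟩ : ∃ χ : ℂ → ℝ, IsTestR χ ∧
      (∀ z ∈ Metric.ball x₀ 2, χ =ᶠ[𝓝 z] fun _ => 1) ∧
      ∀ z, z ∉ Metric.ball x₀ 4 → z ∉ tsupport χ := by
    let B : ContDiffBump x₀ := ⟨2, 3, by norm_num, by norm_num⟩
    refine ⟨B, ⟨B.contDiff, B.hasCompactSupport⟩, fun z hz => B.eventuallyEq_one_of_mem_ball hz, ?_⟩
    intro z hz hz2
    rw [B.tsupport_eq] at hz2
    exact hz (Metric.closedBall_subset_ball (by show (3 : ℝ) < 4; norm_num) hz2)
  -- values of `χ` and its derivatives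
  have χd1 : ∀ z ∈ Metric.ball x₀ 2, ∀ v : ℂ, fderiv ℝ χ z v = 0 := by
    intro z hz v
    rw [(χ1 z hz).fderiv_eq]
    simp
  have χd2 : ∀ z ∈ Metric.ball x₀ 2, lapC χ z = 0 := by
    intro z hz
    have hev : ∀ v : ℂ, (fun w => fderiv ℝ χ w v) =ᶠ[𝓝 z] fun _ => 0 := by
      intro v
      filter_upwards [Metric.isOpen_ball.mem_nhds hz] with w hw
      exact χd1 w hw v
    unfold lapC
    rw [(hev 1).fderiv_eq, (hev Complex.I).fderiv_eq]
    simp
  have χo : ∀ z, z ∉ Metric.ball x₀ 4 → χ z = 0 ∧ (∀ v, fderiv ℝ χ z v = 0) ∧ lapC χ z = 0 := by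
    intro z hz
    have hev : χ =ᶠ[𝓝 z] fun _ => 0 := notMem_tsupport_iff_eventuallyEq.1 (χs z hz)
    have hev1 : ∀ v : ℂ, (fun w => fderiv ℝ χ w v) =ᶠ[𝓝 z] fun _ => 0 := by
      intro v
      filter_upwards [hev.eventuallyEq_nhds] with w hw
      rw [hw.fderiv_eq]
      simp
    refine ⟨hev.self_of_nhds, fun v => (hev1 v).self_of_nhds, ?_⟩
    unfold lapC
    rw [(hev1 1).fderiv_eq, (hev1 Complex.I).fderiv_eq]
    simp
  set F : ℂ → ℝ := r5F U j f χ with hF
  have cd : ∀ v : ℂ, Continuous fun z => 2 * fderiv ℝ χ z v := fun v =>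
    continuous_const.mul (r5_test_d hχ v).r5c
  have sd : ∀ v : ℂ, HasCompactSupport fun z => 2 * fderiv ℝ χ z v := fun v =>
    (r5_test_d hχ v).2.mul_left
  have Fm : AEStronglyMeasurable F volume :=
    (((hf.mul hχ.r5c.aestronglyMeasurable).add
      (l1.1.mul (cd 1).aestronglyMeasurable)).add (l2.1.mul (cd Complex.I).aestronglyMeasurable)).add
      (l0.1.mul (r5_test_lap hχ).r5c.aestronglyMeasurable)
  have Fsq : Integrable (fun z => F z ^ 2) volume := by
    have q1 := lf.mul_sq hχ.r5c hχ.2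
    have q2 := l1.mul_sq (cd 1) (sd 1)
    have q3 := l2.mul_sq (cd Complex.I) (sd Complex.I)
    have q4 := l0.mul_sq (r5_test_lap hχ).r5c (r5_test_lap hχ).2
    refine Integrable.mono' ((((q1.add q2).add q3).add q4).const_mul 4) (Fm.pow 2)
      (Eventually.of_forall fun z => ?_)
    rw [Real.norm_eq_abs, abs_of_nonneg (by positivity)]
    simp only [Pi.add_apply, hF, r5F]
    generalize f z * χ z = a
    generalize (U z).2.1 j * (2 * fderiv ℝ χ z 1) = b
    generalize (U z).2.2 j * (2 * fderiv ℝ χ z Complex.I) = c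
    generalize (U z).1 j * lapC χ z = d
    nlinarith [sq_nonneg (a - b), sq_nonneg (a - c), sq_nonneg (a - d), sq_nonneg (b - c),
      sq_nonneg (b - d), sq_nonneg (c - d)]
  have F0 : ∀ z, z ∉ Metric.ball x₀ 4 → F z = 0 := by
    intro z hz
    obtain ⟨p1, p2, p3⟩ := χo z hz
    simp [hF, r5F, p1, p2, p3]
  have F1 : ∀ z ∈ Metric.ball x₀ 2, F z = f z := by
    intro z hz
    have p1 : χ z = 1 := (χ1 z hz).self_of_nhds
    simp [hF, r5F, p1, χd1 z hz, χd2 z hz]
  have hrep := log_repr (fun z => (U z).1 j * χ z) F 4 x₀ 1 one_pos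
    (l0.mul_int hχ.r5c hχ.2) Fsq Fm
    (fun z hz => by rw [(χo z hz).1, mul_zero]) F0
    (fun φ hφ => r5_weak U hU j f lf h hχ hφ)
  -- splitting
  set g1 : ℂ → ℝ := (Metric.ball x₀ 2).indicator f with hg1
  set G : ℂ → ℝ := fun z => F z - g1 z with hG
  have g1m : AEStronglyMeasurable g1 volume := hf.indicator Metric.isOpen_ball.measurableSet
  have g1sq : Integrable (fun z => g1 z ^ 2) volume := by
    have e : (fun z => g1 z ^ 2) = (Metric.ball x₀ 2).indicator (fun z => f z ^ 2) := by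
      funext z
      by_cases hz : z ∈ Metric.ball x₀ 2
      · rw [hg1, indicator_of_mem hz, indicator_of_mem hz]
      · rw [hg1, indicator_of_notMem hz, indicator_of_notMem hz]; simp
    rw [e, integrable_indicator_iff Metric.isOpen_ball.measurableSet]
    refine (hf2 (2 + ‖x₀‖)).mono_set ?_
    intro z hz
    rw [Metric.mem_ball] at hz
    rw [mem_ball_zero_iff]
    have := norm_le_norm_add_norm_sub' z x₀
    rw [dist_eq_norm] at hz
    linarith
  have g10 : ∀ z, z ∉ Metric.ball x₀ 4 → g1 z = 0 := by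
    intro z hz
    rw [hg1, indicator_of_notMem]
    exact fun h => hz (Metric.ball_subset_ball (by norm_num) h)
  have Gm : AEStronglyMeasurable G volume := Fm.sub g1m
  have Gsq : Integrable (fun z => G z ^ 2) volume := by
    refine Integrable.mono' ((Fsq.add g1sq).const_mul 2) (Gm.pow 2)
      (Eventually.of_forall fun z => ?_)
    rw [Real.norm_eq_abs, abs_of_nonneg (by positivity)]
    simp only [Pi.add_apply, hG]
    nlinarith [sq_nonneg (F z + g1 z)]
  have G0 : ∀ z, z ∉ Metric.ball x₀ 4 → G z = 0 := by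
    intro z hz
    rw [hG]
    simp only []
    rw [F0 z hz, g10 z hz, sub_zero]
  have Gint := r5_int_of_sq Gm Gsq x₀ 4 G0
  refine ⟨fun x => ∫ y, Real.log ‖x - y‖ * G y, ?_, ?_⟩
  · have := log_pot_smooth_off Gint x₀ 2 (‖x₀‖ + 4) (by norm_num) (by
      intro z hz
      refine G0 z fun hz2 => ?_
      rw [Metric.mem_ball, dist_eq_norm] at hz2
      have := norm_le_norm_add_norm_sub' z x₀
      linarith) (by
      intro z hz
      rw [hG]
      simp only []
      rw [F1 z hz, hg1, indicator_of_mem hz, sub_self])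
    have e : (2 : ℝ) / 2 = 1 := by norm_num
    rw [e] at this
    exact this
  · filter_upwards [hrep] with x hx hxb
    have hx2 : x ∈ Metric.ball x₀ 2 := Metric.ball_subset_ball (by norm_num) hxb
    have p1 : χ x = 1 := (χ1 x hx2).self_of_nhds
    simp only [p1, mul_one, div_one] at hx
    have e1 : ∫ y in Metric.ball x₀ 2, Real.log ‖x - y‖ * f y
        = ∫ y, Real.log ‖x - y‖ * g1 y := by
      rw [← integral_indicator Metric.isOpen_ball.measurableSet]
      refine integral_congr_ae (Eventually.of_forall fun y => ?_)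
      show (Metric.ball x₀ 2).indicator (fun y => Real.log ‖x - y‖ * f y) y
        = Real.log ‖x - y‖ * g1 y
      by_cases hy : y ∈ Metric.ball x₀ 2
      · rw [hg1, indicator_of_mem hy, indicator_of_mem hy]
      · rw [hg1, indicator_of_notMem hy, indicator_of_notMem hy, mul_zero]
    have i1 := r5_log_int g1m g1sq x₀ 4 g10 x
    have i2 := r5_log_int Gm Gsq x₀ 4 G0 x
    rw [hx, e1, ← integral_add i1 i2]
    refine integral_congr_ae (Eventually.of_forall fun y => ?_)
    show Real.log ‖x - y‖ * F y = Real.log ‖x - y‖ * g1 y + Real.log ‖x - y‖ * G y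
    rw [hG]
    ring

end Pool.MP_ad5d82_an.Wl
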