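import Pool.Agent.Lib.MP_ad5d82_an.h24.HDefs
import Pool.Agent.Lib.MP_ad5d82_an.h24.H.H1
import Pool.Agent.Lib.MP_ad5d82_an.h24.H.H8b
import Pool.Agent.Lib.MP_ad5d82_an.h24.H.H9
import Pool.Agent.Lib.MP_ad5d82_an.h24.R.R1
import Pool.Agent.Lib.MP_ad5d82_an.h24.R.R2
import Pool.Agent.Lib.MP_ad5d82_an.h24.R.R4
import Pool.Agent.Lib.MP_ad5d82_an.h24.R.R5

set_option autoImplicit false

namespace Pool.MP_ad5d82_an.Wl

open Real Set MeasureTheory Filter Topology
open scoped ContDiff

variable {ι : Type} [Fintype ι] [DecidableEq ι]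

/-! ### R6 smoothness of weak solutions -/

/-- continuous functions are locally square integrable. -/
private theorem r6_cont_loc {g : ℂ → ℝ} (hg : Continuous g) : R5Loc g := by
  refine ⟨hg.aestronglyMeasurable, fun R => ?_⟩
  have : IntegrableOn (fun z => g z ^ 2) (Metric.closedBall (0 : ℂ) R) volume :=
    (hg.pow 2).continuousOn.integrableOn_compact (isCompact_closedBall _ _)
  exact this.mono_set Metric.ball_subset_closedBall

/-- truncation to a ball. -/
private theorem r6_ind {f : ℂ → ℝ} (hf : R5Loc f) (c : ℂ) (r : ℝ) :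
    AEStronglyMeasurable ((Metric.ball c r).indicator f) volume ∧
    Integrable (fun z => ((Metric.ball c r).indicator f z) ^ 2) volume := by
  refine ⟨hf.1.indicator Metric.isOpen_ball.measurableSet, ?_⟩
  have e : (fun z => ((Metric.ball c r).indicator f z) ^ 2)
      = (Metric.ball c r).indicator (fun z => f z ^ 2) := by
    funext z
    by_cases hz : z ∈ Metric.ball c r
    · rw [indicator_of_mem hz, indicator_of_mem hz]
    · rw [indicator_of_notMem hz, indicator_of_notMem hz]; simp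
  rw [e, integrable_indicator_iff Metric.isOpen_ball.measurableSet]
  refine (hf.2 (r + ‖c‖)).mono_set ?_
  intro z hz
  rw [Metric.mem_ball] at hz
  rw [mem_ball_zero_iff]
  have := norm_le_norm_add_norm_sub' z c
  rw [dist_eq_norm] at hz
  linarith

private theorem r6_norm_of {z c : ℂ} {r : ℝ} (h : ‖c‖ + r ≤ ‖z‖) : z ∉ Metric.ball c r := by
  intro hz
  rw [Metric.mem_ball, dist_eq_norm] at hz
  have := norm_le_norm_add_norm_sub' z c
  linarith

private theorem r6_set_int (f : ℂ → ℝ) (c : ℂ) (r : ℝ) (x : ℂ) :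
    ∫ y in Metric.ball c r, Real.log ‖x - y‖ * f y
      = ∫ y, Real.log ‖x - y‖ * (Metric.ball c r).indicator f y := by
  rw [← integral_indicator Metric.isOpen_ball.measurableSet]
  refine integral_congr_ae (Eventually.of_forall fun y => ?_)
  show (Metric.ball c r).indicator (fun y => Real.log ‖x - y‖ * f y) y
    = Real.log ‖x - y‖ * (Metric.ball c r).indicator f y
  by_cases hy : y ∈ Metric.ball c r
  · rw [indicator_of_mem hy, indicator_of_mem hy]
  · rw [indicator_of_notMem hy, indicator_of_notMem hy, mul_zero]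

/-- integration by parts with one compactly supported factor. -/
private theorem r6_ibp {f g : ℂ → ℝ} (hf : ContDiff ℝ 1 f) (hg : ContDiff ℝ 1 g)
    (hc : HasCompactSupport f) (v : ℂ) :
    Integrable (fun z => f z * fderiv ℝ g z v) volume ∧
    Integrable (fun z => fderiv ℝ f z v * g z) volume ∧
    ∫ z, f z * fderiv ℝ g z v = -∫ z, fderiv ℝ f z v * g z := by
  have hfd : Differentiable ℝ f := hf.differentiable (by simp)
  have hgd : Differentiable ℝ g := hg.differentiable (by simp)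
  have cf' : Continuous fun z => fderiv ℝ f z v := (hf.continuous_fderiv (by simp)).clm_apply
    continuous_const
  have cg' : Continuous fun z => fderiv ℝ g z v := (hg.continuous_fderiv (by simp)).clm_apply
    continuous_const
  have hcf' : HasCompactSupport fun z => fderiv ℝ f z v :=
    hc.fderiv_apply ℝ v
  have i1 : Integrable (fun z => fderiv ℝ f z v * g z) volume :=
    (cf'.mul hg.continuous).integrable_of_hasCompactSupport hcf'.mul_right
  have i2 : Integrable (fun z => f z * fderiv ℝ g z v) volume :=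
    (hf.continuous.mul cg').integrable_of_hasCompactSupport hc.mul_right
  have i3 : Integrable (fun z => f z * g z) volume :=
    (hf.continuous.mul hg.continuous).integrable_of_hasCompactSupport hc.mul_right
  have h := integral_mul_fderiv_eq_neg_fderiv_mul_of_integrable (μ := volume) (v := v) i1 i2 i3
    (fun z _ => hfd z) (fun z _ => hgd z)
  exact ⟨i2, i1, h⟩

private theorem r6_green1 {u : ℂ → ℝ} (hu : ContDiff ℝ ∞ u) {φ : ℂ → ℝ} (hφ : IsTestR φ) (v : ℂ) :
    ∫ z, u z * fderiv ℝ (fun w => fderiv ℝ φ w v) z v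
      = ∫ z, φ z * fderiv ℝ (fun w => fderiv ℝ u w v) z v := by
  have hφ' := r5_test_d hφ v
  have hu' : ContDiff ℝ ∞ (fun w => fderiv ℝ u w v) :=
    (hu.fderiv_right (m := ∞) (by simp)).clm_apply contDiff_const
  have one_le : (1 : WithTop ℕ∞) ≤ ∞ := by exact_mod_cast le_top
  obtain ⟨-, -, e1⟩ := r6_ibp (hφ'.1.of_le one_le) (hu.of_le one_le) hφ'.2 v
  obtain ⟨-, -, e2⟩ := r6_ibp (hφ.1.of_le one_le) (hu'.of_le one_le) hφ.2 v
  have c1 : ∫ z, u z * fderiv ℝ (fun w => fderiv ℝ φ w v) z v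
      = ∫ z, fderiv ℝ (fun w => fderiv ℝ φ w v) z v * u z :=
    integral_congr_ae (Eventually.of_forall fun z => mul_comm _ _)
  rw [e2, c1]
  linarith

private theorem r6_green {u : ℂ → ℝ} (hu : ContDiff ℝ ∞ u) {φ : ℂ → ℝ} (hφ : IsTestR φ) :
    ∫ z, u z * lapC φ z = ∫ z, φ z * lapC u z := by
  have hu' : ∀ v : ℂ, ContDiff ℝ ∞ (fun z => fderiv ℝ (fun w => fderiv ℝ u w v) z v) := fun v =>
    ((((hu.fderiv_right (m := ∞) (by simp)).clm_apply contDiff_const :
      ContDiff ℝ ∞ fun w => fderiv ℝ u w v)).fderiv_right (m := ∞) (by simp)).clm_apply contDiff_const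
  have i1 : ∀ v : ℂ, Integrable (fun z => u z * fderiv ℝ (fun w => fderiv ℝ φ w v) z v) volume :=
    fun v => (hu.continuous.mul (r5_test_d (r5_test_d hφ v) v).r5c).integrable_of_hasCompactSupport
      (r5_test_d (r5_test_d hφ v) v).2.mul_left
  have i2 : ∀ v : ℂ, Integrable (fun z => φ z * fderiv ℝ (fun w => fderiv ℝ u w v) z v) volume :=
    fun v => (hφ.r5c.mul (hu' v).continuous).integrable_of_hasCompactSupport hφ.2.mul_right
  have e1 : ∫ z, u z * lapC φ z = ∫ z, (u z * fderiv ℝ (fun w => fderiv ℝ φ w 1) z 1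
      + u z * fderiv ℝ (fun w => fderiv ℝ φ w Complex.I) z Complex.I) :=
    integral_congr_ae (Eventually.of_forall fun z => mul_add _ _ _)
  have e2 : ∫ z, φ z * lapC u z = ∫ z, (φ z * fderiv ℝ (fun w => fderiv ℝ u w 1) z 1
      + φ z * fderiv ℝ (fun w => fderiv ℝ u w Complex.I) z Complex.I) :=
    integral_congr_ae (Eventually.of_forall fun z => mul_add _ _ _)
  rw [e1, e2, integral_add (i1 1) (i1 Complex.I), integral_add (i2 1) (i2 Complex.I),
    r6_green1 hu hφ 1, r6_green1 hu hφ Complex.I]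

/-- one step of the bootstrap. -/
private theorem r6_boot {F : ℂ → ℝ} (n : ℕ) (hF : ContDiff ℝ n F) (x₀ : ℂ) {w : ℂ → ℝ}
    (hw : ContDiffOn ℝ ∞ w (Metric.ball x₀ 1)) {u : ℂ → ℝ}
    (h : ∀ x ∈ Metric.ball x₀ 1,
      u x = ((∫ y in Metric.ball x₀ 2, Real.log ‖x - y‖ * F y) + w x) / (2 * π)) :
    ContDiffAt ℝ (n + 1 : ℕ) u x₀ := by
  obtain ⟨χ, hχ, χ1, χs⟩ : ∃ χ : ℂ → ℝ, IsTestR χ ∧
      (∀ z ∈ Metric.ball x₀ (3 / 2), χ z = 1) ∧
      ∀ z, z ∉ Metric.ball x₀ 2 → χ z = 0 := by
    let B : ContDiffBump x₀ := ⟨3 / 2, 2, by norm_num, by norm_num⟩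
    refine ⟨B, ⟨B.contDiff, B.hasCompactSupport⟩, fun z hz => ?_, fun z hz => ?_⟩
    · exact B.one_of_mem_closedBall (Metric.ball_subset_closedBall hz)
    · refine B.zero_of_le_dist ?_
      rw [Metric.mem_ball, not_lt] at hz
      exact hz
  have lF := r6_cont_loc hF.continuous
  obtain ⟨m0, s0⟩ := r6_ind lF x₀ 2
  set g0 : ℂ → ℝ := (Metric.ball x₀ 2).indicator F with hg0
  set g1 : ℂ → ℝ := fun z => χ z * F z with hg1
  set G : ℂ → ℝ := fun z => g0 z - g1 z with hG
  have cg1 : ContDiff ℝ n g1 := (hχ.1.of_le (by exact_mod_cast le_top)).mul hF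
  have sg1 : HasCompactSupport g1 := hχ.2.mul_right
  have m1 : AEStronglyMeasurable g1 volume := cg1.continuous.aestronglyMeasurable
  have s1 : Integrable (fun z => g1 z ^ 2) volume := by
    refine (cg1.continuous.pow 2).integrable_of_hasCompactSupport (sg1.mono ?_)
    intro z hz
    rw [Function.mem_support] at hz ⊢
    intro h
    exact hz (by simp [h])
  have Gm : AEStronglyMeasurable G volume := m0.sub m1
  have Gsq : Integrable (fun z => G z ^ 2) volume := by
    refine Integrable.mono' ((s0.add s1).const_mul 2) (Gm.pow 2)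
      (Eventually.of_forall fun z => ?_)
    rw [Real.norm_eq_abs, abs_of_nonneg (by positivity)]
    simp only [Pi.add_apply, hG]
    nlinarith [sq_nonneg (g0 z + g1 z)]
  have z0 : ∀ z, z ∉ Metric.ball x₀ 2 → g0 z = 0 := fun z hz => indicator_of_notMem hz _
  have z1 : ∀ z, z ∉ Metric.ball x₀ 2 → g1 z = 0 := by
    intro z hz
    rw [hg1]
    simp only []
    rw [χs z hz, zero_mul]
  have zG : ∀ z, z ∉ Metric.ball x₀ 2 → G z = 0 := by
    intro z hz
    rw [hG]
    simp only []
    rw [z0 z hz, z1 z hz, sub_zero]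
  have Gint := r5_int_of_sq Gm Gsq x₀ 2 zG
  have p1 := log_pot_succ n cg1 sg1
  have p2 := log_pot_smooth_off Gint x₀ (3 / 2) (‖x₀‖ + 2) (by norm_num)
    (fun z hz => zG z (r6_norm_of hz)) (by
      intro z hz
      rw [hG]
      simp only []
      rw [hg1]
      simp only []
      rw [χ1 z hz, one_mul, hg0, indicator_of_mem (Metric.ball_subset_ball (by norm_num) hz),
        sub_self])
  have hnhds : Metric.ball x₀ (3 / 2 / 2) ∈ 𝓝 x₀ := Metric.ball_mem_nhds _ (by norm_num)
  have hnhds1 : Metric.ball x₀ 1 ∈ 𝓝 x₀ := Metric.ball_mem_nhds _ (by norm_num)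
  have hev : u =ᶠ[𝓝 x₀] fun x => ((∫ y, Real.log ‖x - y‖ * g1 y)
      + (∫ y, Real.log ‖x - y‖ * G y) + w x) / (2 * π) := by
    filter_upwards [hnhds1] with x hx
    rw [h x hx, r6_set_int]
    have i1 := r5_log_int m1 s1 x₀ 2 z1 x
    have i2 := r5_log_int Gm Gsq x₀ 2 zG x
    rw [← integral_add i1 i2]
    congr 2
    refine integral_congr_ae (Eventually.of_forall fun y => ?_)
    show Real.log ‖x - y‖ * g0 y = Real.log ‖x - y‖ * g1 y + Real.log ‖x - y‖ * G y
    rw [hG]
    ring
  have le1 : ((n + 1 : ℕ) : WithTop ℕ∞) ≤ ∞ := by exact_mod_cast le_top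
  have c1 : ContDiffAt ℝ (n + 1 : ℕ) (fun x => ∫ y, Real.log ‖x - y‖ * g1 y) x₀ := p1.contDiffAt
  have c2 : ContDiffAt ℝ (n + 1 : ℕ) (fun x => ∫ y, Real.log ‖x - y‖ * G y) x₀ :=
    ((p2.contDiffAt hnhds).of_le le1)
  have c3 : ContDiffAt ℝ (n + 1 : ℕ) w x₀ := (hw.contDiffAt hnhds1).of_le le1
  exact (((c1.add c2).add c3).div_const (2 * π)).congr_of_eventuallyEq hev

theorem regularity (U : Fld ι) (hU : IsSob U) (N : ι → ℂ × Ev ι → ℝ)
    (hN : ∀ j, ContDiff ℝ ∞ (N j))
    (hg : ∀ R : ℝ, ∃ C α : ℝ, ∀ z, ‖z‖ ≤ R → ∀ j v, |N j (z, v)| ≤ C * exp (α * ‖v‖))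
    (h : ∀ (j : ι) (φ : ℂ → ℝ), IsTestR φ →
      ∫ z, ((U z).2.1 j * fderiv ℝ φ z 1 + (U z).2.2 j * fderiv ℝ φ z Complex.I)
        = -∫ z, N j (z, (U z).1) * φ z) :
    ∃ u : ℂ → Ev ι, ContDiff ℝ ∞ u ∧ (∀ᵐ z : ℂ, (U z).1 = u z) ∧
      ∀ j z, lapC (fun z => u z j) z = N j (z, u z) := by
  have hπ : (2 * π) ≠ 0 := by positivity
  -- the right-hand sides
  set f : ι → ℂ → ℝ := fun j z => N j (z, (U z).1) with hf
  have mU1 : AEStronglyMeasurable (fun z => (U z).1) volume :=
    continuous_fst.comp_aestronglyMeasurable hU.1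
  have lf : ∀ j, R5Loc (f j) := by
    intro j
    have m : AEStronglyMeasurable (f j) volume :=
      (hN j).continuous.comp_aestronglyMeasurable
        ((continuous_id.aestronglyMeasurable : AEStronglyMeasurable (fun z : ℂ => z) volume).prodMk mU1)
    refine ⟨m, fun R => ?_⟩
    obtain ⟨C, α, hC⟩ := hg R
    have hi := (exp_integrable hU (2 * α) R).const_mul (C ^ 2)
    refine Integrable.mono' hi (m.pow 2).restrict ?_
    rw [ae_restrict_iff' Metric.isOpen_ball.measurableSet]
    refine Eventually.of_forall fun z hz => ?_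
    rw [Real.norm_eq_abs, abs_of_nonneg (by positivity)]
    have hz' : ‖z‖ ≤ R := by
      rw [mem_ball_zero_iff] at hz
      exact hz.le
    have h1 := hC z hz' j (U z).1
    calc (f j z) ^ 2 = |f j z| ^ 2 := (sq_abs _).symm
      _ ≤ (C * exp (α * ‖(U z).1‖)) ^ 2 := pow_le_pow_left₀ (abs_nonneg _) h1 2
      _ = C ^ 2 * exp (2 * α * ‖(U z).1‖) := by
        rw [mul_pow, ← Real.exp_nat_mul]
        congr 2
        push_cast
        ring
  -- local representations
  have hloc : ∀ (x₀ : ℂ) (j : ι), ∃ w : ℂ → ℝ, ContDiffOn ℝ ∞ w (Metric.ball x₀ 1) ∧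
      ∀ᵐ x : ℂ, x ∈ Metric.ball x₀ 1 →
        2 * π * (U x).1 j = (∫ y in Metric.ball x₀ 2, Real.log ‖x - y‖ * f j y) + w x :=
    fun x₀ j => local_repr U hU j (f j) (lf j).1 (lf j).2 (h j) x₀
  choose w hw hrep using hloc
  set V : ℂ → ι → ℂ → ℝ := fun x₀ j x =>
    ((∫ y in Metric.ball x₀ 2, Real.log ‖x - y‖ * f j y) + w x₀ j x) / (2 * π) with hV
  have hVae : ∀ x₀ j, ∀ᵐ x : ℂ, x ∈ Metric.ball x₀ 1 → (U x).1 j = V x₀ j x := by
    intro x₀ j
    filter_upwards [hrep x₀ j] with x hx hxb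
    rw [hV]
    simp only []
    rw [← hx hxb]
    field_simp
  have hVc : ∀ x₀ j, ContinuousOn (V x₀ j) (Metric.ball x₀ 1) := by
    intro x₀ j
    obtain ⟨m0, s0⟩ := r6_ind (lf j) x₀ 2
    have hc := log_pot_cont m0 s0 (‖x₀‖ + 2) (fun z hz => indicator_of_notMem (r6_norm_of hz) _)
    have hc' : Continuous fun x => ∫ y in Metric.ball x₀ 2, Real.log ‖x - y‖ * f j y := by
      have e : (fun x => ∫ y in Metric.ball x₀ 2, Real.log ‖x - y‖ * f j y)
          = fun x => ∫ y, Real.log ‖x - y‖ * (Metric.ball x₀ 2).indicator (f j) y := by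
        funext x
        exact r6_set_int (f j) x₀ 2 x
      rw [e]
      exact hc
    exact (hc'.continuousOn.add (hw x₀ j).continuousOn).div_const _
  -- gluing
  set u : ℂ → Ev ι := fun x => WithLp.toLp 2 (fun j => V x j x) with hu
  have hglue : ∀ x₀ : ℂ, ∀ x ∈ Metric.ball x₀ 1, ∀ j, u x j = V x₀ j x := by
    intro x₀ x hx j
    show V x j x = V x₀ j x
    have hop : IsOpen (Metric.ball x 1 ∩ Metric.ball x₀ 1) :=
      Metric.isOpen_ball.inter Metric.isOpen_ball
    have hae : V x j =ᵐ[volume.restrict (Metric.ball x 1 ∩ Metric.ball x₀ 1)] V x₀ j := by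
      rw [Filter.EventuallyEq, ae_restrict_iff' hop.measurableSet]
      filter_upwards [hVae x j, hVae x₀ j] with y h1 h2 hy
      rw [← h1 hy.1, ← h2 hy.2]
    exact Measure.eqOn_open_of_ae_eq hae hop ((hVc x j).mono inter_subset_left)
      ((hVc x₀ j).mono inter_subset_right) ⟨Metric.mem_ball_self one_pos, hx⟩
  have huc : ∀ j, Continuous fun x => u x j := by
    intro j
    rw [continuous_iff_continuousAt]
    intro x₀
    have hn : Metric.ball x₀ 1 ∈ 𝓝 x₀ := Metric.ball_mem_nhds _ one_pos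
    have hev : (fun x => u x j) =ᶠ[𝓝 x₀] V x₀ j := by
      filter_upwards [hn] with x hx
      exact hglue x₀ x hx j
    exact ((hVc x₀ j).continuousAt hn).congr hev.symm
  have hUu : ∀ᵐ z : ℂ, (U z).1 = u z := by
    rw [ae_iff]
    refine measure_null_of_locally_null _ fun x _ => ?_
    refine ⟨{a | ¬(U a).1 = u a} ∩ Metric.ball x 1,
      inter_mem_nhdsWithin _ (Metric.ball_mem_nhds _ one_pos), ?_⟩
    have hall : ∀ᵐ y : ℂ, ∀ j, y ∈ Metric.ball x 1 → (U y).1 j = V x j y :=
      ae_all_iff.2 fun j => hVae x j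
    have : ∀ᵐ y : ℂ, ¬ (y ∈ {a | ¬(U a).1 = u a} ∩ Metric.ball x 1) := by
      filter_upwards [hall] with y hy hmem
      apply hmem.1
      ext j
      rw [hy j hmem.2, hglue x y hmem.2 j]
    rw [ae_iff] at this
    simp only [not_not, Set.ofPred_mem_eq] at this
    exact this
  -- continuous right-hand sides
  set F : ι → ℂ → ℝ := fun j z => N j (z, u z) with hF
  have hfF : ∀ j, ∀ᵐ z : ℂ, f j z = F j z := by
    intro j
    filter_upwards [hUu] with z hz
    rw [hf, hF]
    simp only []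
    rw [hz]
  have hrepF : ∀ (x₀ : ℂ) (j : ι), ∀ x ∈ Metric.ball x₀ 1, u x j
      = ((∫ y in Metric.ball x₀ 2, Real.log ‖x - y‖ * F j y) + w x₀ j x) / (2 * π) := by
    intro x₀ j x hx
    rw [hglue x₀ x hx j, hV]
    simp only []
    congr 2
    refine integral_congr_ae (ae_restrict_of_ae ?_)
    filter_upwards [hfF j] with y hy
    rw [hy]
  have hboot : ∀ n : ℕ, ContDiff ℝ n u := by
    intro n
    induction n with
    | zero =>
      rw [Nat.cast_zero, contDiff_zero]
      have : Continuous fun x => WithLp.toLp 2 (fun j => u x j) :=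
        (PiLp.continuous_toLp 2 _).comp (continuous_pi huc)
      exact this
    | succ n ih =>
      rw [contDiff_euclidean]
      intro j
      rw [contDiff_iff_contDiffAt]
      intro x₀
      have hFn : ContDiff ℝ n (F j) :=
        ((hN j).of_le (by exact_mod_cast le_top)).comp (contDiff_id.prodMk ih)
      exact r6_boot n hFn x₀ (hw x₀ j) (hrepF x₀ j)
  have husm : ContDiff ℝ ∞ u := contDiff_infty.2 hboot
  refine ⟨u, husm, hUu, fun j => ?_⟩
  have huj : ContDiff ℝ ∞ fun z => u z j := (contDiff_euclidean.1 husm) j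
  have hFj : ContDiff ℝ ∞ (F j) := (hN j).comp (contDiff_id.prodMk husm)
  have hL : Continuous (lapC fun z => u z j) := by
    have hd : ∀ v : ℂ, Continuous fun z => fderiv ℝ (fun w => fderiv ℝ (fun z => u z j) w v) z v :=
      fun v => (((((huj.fderiv_right (m := ∞) (by simp)).clm_apply contDiff_const :
        ContDiff ℝ ∞ fun w => fderiv ℝ (fun z => u z j) w v)).fderiv_right (m := ∞)
          (by simp)).clm_apply contDiff_const).continuous
    exact (hd 1).add (hd Complex.I)
  have hweak : ∀ φ : ℂ → ℝ, IsTestR φ →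
      ∫ z, φ z * ((lapC fun z => u z j) z - F j z) = 0 := by
    intro φ hφ
    obtain ⟨l0, l1, l2⟩ := r5_loc hU j
    have t1 := r5_test_d hφ 1
    have t2 := r5_test_d hφ Complex.I
    have e0 := h j φ hφ
    have i1 := l1.mul_int t1.r5c t1.2
    have i2 := l2.mul_int t2.r5c t2.2
    rw [integral_add i1 i2, (hU.weak_deriv j t1).1, (hU.weak_deriv j t2).2] at e0
    have k1 := l0.mul_int (r5_test_d t1 1).r5c (r5_test_d t1 1).2
    have k2 := l0.mul_int (r5_test_d t2 Complex.I).r5c (r5_test_d t2 Complex.I).2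
    have e1 : ∫ z, (U z).1 j * lapC φ z = ∫ z, f j z * φ z := by
      have : ∫ z, (U z).1 j * lapC φ z
          = ∫ z, ((U z).1 j * fderiv ℝ (fun w => fderiv ℝ φ w 1) z 1
            + (U z).1 j * fderiv ℝ (fun w => fderiv ℝ φ w Complex.I) z Complex.I) :=
        integral_congr_ae (Eventually.of_forall fun z => mul_add _ _ _)
      rw [this, integral_add k1 k2]
      linarith
    have e2 : ∫ z, (U z).1 j * lapC φ z = ∫ z, u z j * lapC φ z := by
      refine integral_congr_ae ?_
      filter_upwards [hUu] with z hz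
      rw [hz]
    have e3 : ∫ z, f j z * φ z = ∫ z, φ z * F j z := by
      refine integral_congr_ae ?_
      filter_upwards [hfF j] with z hz
      rw [hz, mul_comm]
    have e4 := r6_green huj hφ
    have q1 : Integrable (fun z => φ z * (lapC fun z => u z j) z) volume :=
      (hφ.r5c.mul hL).integrable_of_hasCompactSupport hφ.2.mul_right
    have q2 : Integrable (fun z => φ z * F j z) volume :=
      (hφ.r5c.mul hFj.continuous).integrable_of_hasCompactSupport hφ.2.mul_right
    have e5 : ∫ z, φ z * ((lapC fun z => u z j) z - F j z)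
        = ∫ z, (φ z * (lapC fun z => u z j) z - φ z * F j z) :=
      integral_congr_ae (Eventually.of_forall fun z => mul_sub _ _ _)
    rw [e5, integral_sub q1 q2]
    linarith
  have hzero : ∀ᵐ z : ℂ, (lapC fun z => u z j) z - F j z = 0 := by
    refine ae_eq_zero_of_integral_contDiff_smul_eq_zero
      (hL.sub hFj.continuous).locallyIntegrable fun g hg1 hg2 => ?_
    simp only [smul_eq_mul]
    exact hweak g ⟨hg1, hg2⟩
  have heq : (fun z => (lapC fun z => u z j) z) = F j := by
    refine (Continuous.ae_eq_iff_eq volume hL hFj.continuous).1 ?_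
    filter_upwards [hzero] with z hz
    linarith
  intro z
  exact congrFun heq z

end Pool.MP_ad5d82_an.Wl
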